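import Mathlib
import Pool.Agent.Helper902.NARos

set_option autoImplicit false

open Filter Topology Finset

namespace Pool.Agent.Y278

open Pool.Agent.Helper902.NA

/-- Countably many oscillation levels: either some level oscillates hereditarily on some infinite
set, or some infinite set has no oscillation at any level. -/
theorem jn_alt {Ω : Type*} (A B : ℕ → ℕ → Set Ω) :
    (∃ i, ∃ M₀ : Set ℕ, M₀.Infinite ∧ ∀ M : Set ℕ, M ⊆ M₀ → M.Infinite →
      ∃ y : Ω, {n | n ∈ M ∧ y ∈ A i n}.Infinite ∧ {n | n ∈ M ∧ y ∈ B i n}.Infinite) ∨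
    (∃ M : Set ℕ, M.Infinite ∧ ∀ i, ¬ ∃ y : Ω, {n | n ∈ M ∧ y ∈ A i n}.Infinite ∧
      {n | n ∈ M ∧ y ∈ B i n}.Infinite) := by
  classical
  by_contra hcon
  rw [not_or] at hcon
  obtain ⟨h1, h2⟩ := hcon
  apply h2
  have key : ∀ (i : ℕ) (M₀ : {M : Set ℕ // M.Infinite}), ∃ M : {M : Set ℕ // M.Infinite},
      M.1 ⊆ M₀.1 ∧ ¬ ∃ y : Ω, {n | n ∈ M.1 ∧ y ∈ A i n}.Infinite ∧
        {n | n ∈ M.1 ∧ y ∈ B i n}.Infinite := by
    rintro i ⟨M₀, hM₀⟩
    by_contra hc
    apply h1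
    refine ⟨i, M₀, hM₀, fun M hM hinf => ?_⟩
    by_contra hy
    exact hc ⟨⟨M, hinf⟩, hM, hy⟩
  choose g hg1 hg2 using key
  let S : ℕ → {M : Set ℕ // M.Infinite} := fun n =>
    Nat.rec ⟨Set.univ, Set.infinite_univ⟩ (fun i M => g i M) n
  have hS : ∀ i, S (i + 1) = g i (S i) := fun i => rfl
  have hanti : ∀ i j, i ≤ j → (S j).1 ⊆ (S i).1 := by
    intro i j hij
    induction hij with
    | refl => exact subset_rfl
    | step _ ih => exact (hg1 _ _).trans ih
  have hex : ∀ (k m : ℕ), ∃ n, n ∈ (S k).1 ∧ m < n := by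
    intro k m
    obtain ⟨n, hn, hmn⟩ := (S k).2.exists_gt m
    exact ⟨n, hn, hmn⟩
  choose e he1 he2 using hex
  let m : ℕ → ℕ := fun n => Nat.rec (e 0 0) (fun k p => e (k + 1) p) n
  have hm : ∀ k, m (k + 1) = e (k + 1) (m k) := fun k => rfl
  have hmS : ∀ k, m k ∈ (S k).1 := by
    intro k
    cases k with
    | zero => exact he1 0 0
    | succ k => exact he1 (k + 1) (m k)
  have hmono : StrictMono m := strictMono_nat_of_lt_succ fun k => by rw [hm]; exact he2 _ _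
  refine ⟨Set.range m, Set.infinite_range_of_injective hmono.injective, ?_⟩
  rintro i ⟨y, hyA, hyB⟩
  have htr : ∀ C : ℕ → Set Ω, {n | n ∈ Set.range m ∧ y ∈ C n}.Infinite →
      {n | n ∈ (S (i + 1)).1 ∧ y ∈ C n}.Infinite := by
    intro C hC
    have hfin : (m '' (Set.Iic i)).Finite := (Set.finite_Iic i).image _
    refine (hC.sdiff hfin).mono ?_
    rintro n ⟨⟨⟨k, rfl⟩, hnC⟩, hn⟩
    refine ⟨hanti (i + 1) k ?_ (hmS k), hnC⟩
    by_contra hlt
    exact hn ⟨k, by simp only [Set.mem_Iic]; omega, rfl⟩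
  exact hg2 i (S i) ⟨y, htr _ hyA, htr _ hyB⟩

/-- Either the dual of an infinite-dimensional real normed space has a weak* null sequence of
functionals bounded away from zero, or a bounded sequence with a lower `ℓ₁` estimate. -/
theorem jn_first {E : Type*} [NormedAddCommGroup E] [NormedSpace ℝ E]
    (hE : ¬ FiniteDimensional ℝ E) :
    (∃ (v : ℕ → (E →L[ℝ] ℝ)) (c C : ℝ), 0 < c ∧ (∀ n, c ≤ ‖v n‖) ∧ (∀ n, ‖v n‖ ≤ C) ∧
      ∀ x, Tendsto (fun n => v n x) atTop (𝓝 0)) ∨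
    (∃ (f : ℕ → (E →L[ℝ] ℝ)) (c : ℝ), 0 < c ∧ (∀ n, ‖f n‖ ≤ 1) ∧
      ∀ (n : ℕ) (a : ℕ → ℝ), c * ∑ j ∈ range n, |a j| ≤ ‖∑ j ∈ range n, a j • f j‖) := by
  classical
  have hE' : ¬ FiniteDimensional ℝ (E →L[ℝ] ℝ) := by
    intro hfin
    apply hE
    have : FiniteDimensional ℝ ((E →L[ℝ] ℝ) →L[ℝ] ℝ) := inferInstance
    exact FiniteDimensional.of_injective
      (NormedSpace.inclusionInDoubleDual ℝ E : E →L[ℝ] _).toLinearMap
      (NormedSpace.inclusionInDoubleDualLi ℝ (E := E)).injective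
  obtain ⟨R, f, hR, hf, hsep⟩ := exists_seq_norm_le_one_le_norm_sub hE'
  have hR0 : 0 < R := by linarith
  -- enumerate pairs of rationals
  obtain ⟨q, hq⟩ := exists_surjective_nat (ℚ × ℚ)
  let A : ℕ → ℕ → Set {y : E // ‖y‖ ≤ 1} := fun i n => {y | ((max (q i).1 (q i).2 : ℚ) : ℝ) < f n y.1}
  let B : ℕ → ℕ → Set {y : E // ‖y‖ ≤ 1} := fun i n =>
    {y | (q i).1 ≠ (q i).2 ∧ f n y.1 < ((min (q i).1 (q i).2 : ℚ) : ℝ)}
  rcases jn_alt A B with ⟨i, M₀, hM₀, hosc⟩ | ⟨M, hM, hno⟩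
  · right
    obtain ⟨φ, hφ, -, hind⟩ := rosenthal_independent (A i) (B i) M₀ hM₀ hosc
    have hne : (q i).1 ≠ (q i).2 := by
      obtain ⟨y, hy⟩ := hind 1 ∅
      exact ((hy 0 Nat.zero_lt_one).2 (Set.notMem_empty 0)).1
    have hlt : ((min (q i).1 (q i).2 : ℚ) : ℝ) < ((max (q i).1 (q i).2 : ℚ) : ℝ) := by
      exact_mod_cast min_lt_max.2 hne
    set r : ℝ := ((min (q i).1 (q i).2 : ℚ) : ℝ) with hr
    set s : ℝ := ((max (q i).1 (q i).2 : ℚ) : ℝ) with hs
    refine ⟨fun j => R⁻¹ • f (φ j), R⁻¹ * ((s - r) / 2), mul_pos (inv_pos.2 hR0) (by linarith),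
      fun n => ?_, fun n a => ?_⟩
    · rw [norm_smul, norm_inv, Real.norm_of_nonneg hR0.le]
      rw [inv_mul_le_iff₀ hR0, mul_one]
      exact hf _
    · obtain ⟨y₁, hy₁⟩ := hind n {j | 0 ≤ a j}
      obtain ⟨y₂, hy₂⟩ := hind n {j | ¬ (0 ≤ a j)}
      have h1 : (s - r) * ∑ j ∈ range n, |a j| ≤
          (∑ j ∈ range n, a j • f (φ j)) (y₁.1 - y₂.1) := by
        rw [_root_.sum_apply, Finset.mul_sum]
        apply Finset.sum_le_sum
        intro j hj
        have hj' : j < n := Finset.mem_range.1 hj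
        rw [smul_apply, smul_eq_mul, map_sub]
        by_cases ha : 0 ≤ a j
        · have h3 : s < f (φ j) y₁.1 := (hy₁ j hj').1 ha
          have h4 : f (φ j) y₂.1 < r := ((hy₂ j hj').2 (fun h => h ha)).2
          rw [abs_of_nonneg ha]
          nlinarith
        · have h3 : f (φ j) y₁.1 < r := ((hy₁ j hj').2 ha).2
          have h4 : s < f (φ j) y₂.1 := (hy₂ j hj').1 ha
          push Not at ha
          rw [abs_of_neg ha]
          nlinarith
      have h2 : (∑ j ∈ range n, a j • f (φ j)) (y₁.1 - y₂.1) ≤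
          2 * ‖∑ j ∈ range n, a j • f (φ j)‖ := by
        calc (∑ j ∈ range n, a j • f (φ j)) (y₁.1 - y₂.1)
            ≤ ‖(∑ j ∈ range n, a j • f (φ j)) (y₁.1 - y₂.1)‖ := le_abs_self _
          _ ≤ ‖∑ j ∈ range n, a j • f (φ j)‖ * ‖y₁.1 - y₂.1‖ := ContinuousLinearMap.le_opNorm _ _
          _ ≤ ‖∑ j ∈ range n, a j • f (φ j)‖ * 2 := by
            apply mul_le_mul_of_nonneg_left _ (norm_nonneg _)
            have := norm_sub_le y₁.1 y₂.1
            linarith [y₁.2, y₂.2]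
          _ = 2 * ‖∑ j ∈ range n, a j • f (φ j)‖ := by ring
      have h5 : ∑ j ∈ range n, a j • R⁻¹ • f (φ j) = R⁻¹ • ∑ j ∈ range n, a j • f (φ j) := by
        rw [Finset.smul_sum]
        apply Finset.sum_congr rfl
        intro j _
        rw [smul_comm]
      rw [h5, norm_smul, norm_inv, Real.norm_of_nonneg hR0.le, mul_assoc]
      apply mul_le_mul_of_nonneg_left _ (inv_pos.2 hR0).le
      linarith
  · left
    obtain ⟨φ, hφ, hφM⟩ : ∃ φ : ℕ → ℕ, StrictMono φ ∧ ∀ n, φ n ∈ M :=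
      ⟨Nat.nth (· ∈ M), Nat.nth_strictMono hM, fun n => Nat.nth_mem_of_infinite hM n⟩
    -- pointwise convergence on the ball
    have hconv : ∀ y : E, ‖y‖ ≤ 1 → ∃ l, Tendsto (fun n => f (φ n) y) atTop (𝓝 l) := by
      intro y hy
      have hbd : ∀ n, |f n y| ≤ R := fun n => by
        calc |f n y| = ‖f n y‖ := rfl
          _ ≤ ‖f n‖ * ‖y‖ := (f n).le_opNorm _
          _ ≤ R * 1 := mul_le_mul (hf n) hy (norm_nonneg _) hR0.le
          _ = R := mul_one R
      have hbu1 : IsBoundedUnder (· ≤ ·) atTop (fun n => f (φ n) y) :=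
        isBoundedUnder_of ⟨R, fun n => (abs_le.1 (hbd _)).2⟩
      have hbu2 : IsBoundedUnder (· ≥ ·) atTop (fun n => f (φ n) y) :=
        isBoundedUnder_of ⟨-R, fun n => (abs_le.1 (hbd _)).1⟩
      apply tendsto_of_no_upcrossings (s := Set.range ((↑) : ℚ → ℝ)) Rat.denseRange_cast
      · rintro _ ⟨r, rfl⟩ _ ⟨s, rfl⟩ hrs ⟨hf1, hf2⟩
        obtain ⟨i, hi⟩ := hq (r, s)
        have hrs' : r < s := by exact_mod_cast hrs
        have hmin : min (q i).1 (q i).2 = r := by rw [hi]; exact min_eq_left hrs'.le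
        have hmax : max (q i).1 (q i).2 = s := by rw [hi]; exact max_eq_right hrs'.le
        apply hno i
        refine ⟨⟨y, hy⟩, ?_, ?_⟩
        · have h3 : {n | (s : ℝ) < f (φ n) y}.Infinite := Nat.frequently_atTop_iff_infinite.1 hf2
          have h4 := h3.image (hφ.injective.injOn)
          refine h4.mono ?_
          rintro _ ⟨n, hn, rfl⟩
          refine ⟨hφM n, ?_⟩
          show ((max (q i).1 (q i).2 : ℚ) : ℝ) < f (φ n) y
          rw [hmax]
          exact hn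
        · have h3 : {n | f (φ n) y < (r : ℝ)}.Infinite := Nat.frequently_atTop_iff_infinite.1 hf1
          have h4 := h3.image (hφ.injective.injOn)
          refine h4.mono ?_
          rintro _ ⟨n, hn, rfl⟩
          refine ⟨hφM n, ?_, ?_⟩
          · rw [hi]; exact hrs'.ne
          · show f (φ n) y < ((min (q i).1 (q i).2 : ℚ) : ℝ)
            rw [hmin]
            exact hn
    have hconv' : ∀ y : E, ∃ l, Tendsto (fun n => f (φ n) y) atTop (𝓝 l) := by
      intro y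
      rcases eq_or_ne y 0 with rfl | hy
      · exact ⟨0, by simp⟩
      · have hpos : 0 < ‖y‖ := norm_pos_iff.mpr hy
        obtain ⟨l, hl⟩ := hconv (‖y‖⁻¹ • y) (by rw [norm_smul]; simp [hpos.ne'])
        refine ⟨‖y‖ * l, ?_⟩
        have := hl.const_mul ‖y‖
        refine this.congr fun n => ?_
        rw [map_smul, smul_eq_mul, ← mul_assoc, mul_inv_cancel₀ hpos.ne', one_mul]
    refine ⟨fun n => f (φ n) - f (φ (n + 1)), 1, R + R, one_pos, fun n => ?_, fun n => ?_, fun y => ?_⟩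
    · exact hsep (hφ.injective.ne (by omega))
    · exact (norm_sub_le _ _).trans (add_le_add (hf _) (hf _))
    · obtain ⟨l, hl⟩ := hconv' y
      have h2 : Tendsto (fun n => f (φ (n + 1)) y) atTop (𝓝 l) :=
        hl.comp (tendsto_add_atTop_nat 1)
      have := hl.sub h2
      rw [sub_self] at this
      exact this

end Pool.Agent.Y278
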