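import Mathlib
import Pool.Agent.Helper902.NAStab

set_option autoImplicit false

open Filter Topology Finset

namespace Pool.Agent.Y278

open Pool.Agent.Helper902.NA

variable {E : Type*} [NormedAddCommGroup E] [NormedSpace ℝ E]

/-- `x` in the ball sees vectors of `W` far out with size larger than `t`. -/
def Asy (T : (ℕ →₀ ℝ) →ₗ[ℝ] (E →L[ℝ] ℝ)) (W : Submodule ℝ (ℕ →₀ ℝ)) (t : ℝ) : Prop :=
  ∃ x : E, ‖x‖ ≤ 1 ∧ ∀ M, ∃ v ∈ W, st_tl M v ∧ st_q v = 1 ∧ t < |T v x|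

theorem Asy.mono {T : (ℕ →₀ ℝ) →ₗ[ℝ] (E →L[ℝ] ℝ)} {W W' : Submodule ℝ (ℕ →₀ ℝ)} {t t' : ℝ}
    (h : Asy T W t) (hW : W ≤ W') (ht : t' ≤ t) : Asy T W' t' := by
  obtain ⟨x, hx, h2⟩ := h
  refine ⟨x, hx, fun M => ?_⟩
  obtain ⟨v, h3, h4, h5, h6⟩ := h2 M
  exact ⟨v, hW h3, h4, h5, lt_of_le_of_lt ht h6⟩

theorem Asy.neg {T : (ℕ →₀ ℝ) →ₗ[ℝ] (E →L[ℝ] ℝ)} {W : Submodule ℝ (ℕ →₀ ℝ)} (hW : st_Big W)
    {t : ℝ} (ht : t < 0) : Asy T W t := by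
  refine ⟨0, by simp, fun M => ?_⟩
  obtain ⟨v, h1, h2, h3⟩ := hW M
  exact ⟨v, h1, h2, h3, by simpa using ht⟩

theorem Asy.lt_one {T : (ℕ →₀ ℝ) →ₗ[ℝ] (E →L[ℝ] ℝ)} (hT : ∀ v, ‖T v‖ ≤ st_q v)
    {W : Submodule ℝ (ℕ →₀ ℝ)} {t : ℝ} (h : Asy T W t) : t < 1 := by
  obtain ⟨x, hx, h2⟩ := h
  obtain ⟨v, _, _, h5, h6⟩ := h2 0
  refine lt_of_lt_of_le h6 ?_
  calc |T v x| = ‖T v x‖ := rfl
    _ ≤ ‖T v‖ * ‖x‖ := (T v).le_opNorm x
    _ ≤ 1 * 1 := mul_le_mul ((hT v).trans h5.le) hx (norm_nonneg _) zero_le_one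
    _ = 1 := one_mul 1

theorem Asy.tail {T : (ℕ →₀ ℝ) →ₗ[ℝ] (E →L[ℝ] ℝ)} {W : Submodule ℝ (ℕ →₀ ℝ)} {t : ℝ}
    (h : Asy T W t) (L : ℕ) : Asy T (W ⊓ st_tlS L) t := by
  obtain ⟨x, hx, h2⟩ := h
  refine ⟨x, hx, fun M => ?_⟩
  obtain ⟨v, h3, h4, h5, h6⟩ := h2 (max M L)
  exact ⟨v, ⟨h3, st_tl_mono (le_max_right _ _) h4⟩, st_tl_mono (le_max_left _ _) h4, h5, h6⟩

theorem Big.tail {W : Submodule ℝ (ℕ →₀ ℝ)} (hW : st_Big W) (L : ℕ) : st_Big (W ⊓ st_tlS L) := by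
  intro M
  obtain ⟨v, h3, h4, h5⟩ := hW (max M L)
  exact ⟨v, ⟨h3, st_tl_mono (le_max_right _ _) h4⟩, st_tl_mono (le_max_left _ _) h4, h5⟩

/-- the supremum of the asymptotic levels -/
noncomputable def PW (T : (ℕ →₀ ℝ) →ₗ[ℝ] (E →L[ℝ] ℝ)) (W : Submodule ℝ (ℕ →₀ ℝ)) : ℝ :=
  sSup {t | Asy T W t}

section
variable {T : (ℕ →₀ ℝ) →ₗ[ℝ] (E →L[ℝ] ℝ)} (hT : ∀ v, ‖T v‖ ≤ st_q v)
include hT

theorem PW_bdd (W : Submodule ℝ (ℕ →₀ ℝ)) : BddAbove {t | Asy T W t} :=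
  ⟨1, fun _ ht => (Asy.lt_one hT ht).le⟩

theorem PW_nonneg {W : Submodule ℝ (ℕ →₀ ℝ)} (hW : st_Big W) : 0 ≤ PW T W := by
  apply le_of_forall_lt
  intro c hc
  have h1 : Asy T W (c / 2) := Asy.neg hW (by linarith)
  have h2 : c / 2 ≤ PW T W := le_csSup (PW_bdd hT W) h1
  linarith

theorem PW_mono {W W' : Submodule ℝ (ℕ →₀ ℝ)} (hW : st_Big W) (h : W ≤ W') : PW T W ≤ PW T W' := by
  apply csSup_le ⟨-1, Asy.neg hW (by norm_num)⟩
  intro t ht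
  exact le_csSup (PW_bdd hT W') (Asy.mono ht h le_rfl)

theorem PW_tail {W : Submodule ℝ (ℕ →₀ ℝ)} (hW : st_Big W) (L : ℕ) :
    PW T W ≤ PW T (W ⊓ st_tlS L) := by
  apply csSup_le ⟨-1, Asy.neg hW (by norm_num)⟩
  intro t ht
  exact le_csSup (PW_bdd hT _) (Asy.tail ht L)

omit hT in
theorem PW_spec {W : Submodule ℝ (ℕ →₀ ℝ)} (hW : st_Big W) {t : ℝ} (ht : t < PW T W) :
    Asy T W t := by
  obtain ⟨s, hs, hts⟩ := exists_lt_of_lt_csSup ⟨-1, Asy.neg hW (by norm_num)⟩ ht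
  exact Asy.mono hs le_rfl hts.le

/-- stabilisation of the level -/
theorem PW_stab : ∃ W : Submodule ℝ (ℕ →₀ ℝ), st_Big W ∧
    ∀ W' : Submodule ℝ (ℕ →₀ ℝ), W' ≤ W → st_Big W' → PW T W ≤ PW T W' := by
  classical
  have hbigtop : st_Big ⊤ := by
    intro M
    refine ⟨Finsupp.single M 1, Submodule.mem_top, ?_, ?_⟩
    · intro i hi
      rw [Finsupp.single_apply, if_neg (by omega)]
    · have : st_hd (M + 1) (Finsupp.single M (1 : ℝ)) := by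
        intro i hi
        rw [Finsupp.single_apply, if_neg (by omega)]
      rw [st_q_eq this, Finset.sum_range_succ, Finset.sum_eq_zero]
      · simp
      · intro i hi
        rw [Finset.mem_range] at hi
        rw [Finsupp.single_apply, if_neg (by omega), abs_zero]
  have step : ∀ (n : ℕ) (W : Submodule ℝ (ℕ →₀ ℝ)) (N : ℕ), st_Big W →
      ∃ (v : ℕ →₀ ℝ) (N' : ℕ) (W' : Submodule ℝ (ℕ →₀ ℝ)), v ∈ W ∧ st_tl N v ∧ st_q v = 1 ∧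
        st_hd N' v ∧ N < N' ∧ W' ≤ W ∧ st_Big W' ∧
        ∀ W'' : Submodule ℝ (ℕ →₀ ℝ), W'' ≤ W → st_Big W'' → PW T W' ≤ PW T W'' + 1 / ((n : ℝ) + 1) := by
    intro n W N hW
    obtain ⟨v, h1, h2, h3⟩ := hW N
    obtain ⟨K, hK⟩ := st_exists_hd v
    have hne : (PW T '' {W'' : Submodule ℝ (ℕ →₀ ℝ) | W'' ≤ W ∧ st_Big W''}).Nonempty :=
      ⟨_, W, ⟨le_rfl, hW⟩, rfl⟩
    have hbd : BddBelow (PW T '' {W'' : Submodule ℝ (ℕ →₀ ℝ) | W'' ≤ W ∧ st_Big W''}) := by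
      refine ⟨0, ?_⟩
      rintro _ ⟨W'', ⟨_, h⟩, rfl⟩
      exact PW_nonneg hT h
    have hpos : 0 < 1 / ((n : ℝ) + 1) := by positivity
    obtain ⟨_, ⟨W', ⟨hW'1, hW'2⟩, rfl⟩, hlt⟩ := exists_lt_of_csInf_lt hne
      (lt_add_of_pos_right (sInf (PW T '' {W'' : Submodule ℝ (ℕ →₀ ℝ) | W'' ≤ W ∧ st_Big W''})) hpos)
    refine ⟨v, max K (N + 1), W', h1, h2, h3, st_hd_mono (le_max_left _ _) hK,
      lt_of_lt_of_le (Nat.lt_succ_self _) (le_max_right _ _), hW'1, hW'2, fun W'' g1 g2 => ?_⟩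
    have := csInf_le hbd ⟨W'', ⟨g1, g2⟩, rfl⟩
    linarith
  choose! fv fN fW s1 s2 s3 s4 s5 s6 s7 s8 using step
  let st : ℕ → Submodule ℝ (ℕ →₀ ℝ) × ℕ := fun n =>
    Nat.rec (⊤, 0) (fun n s => (fW n s.1 s.2, fN n s.1 s.2)) n
  have hst : ∀ n, st (n + 1) = (fW n (st n).1 (st n).2, fN n (st n).1 (st n).2) := fun n => rfl
  have hbig : ∀ n, st_Big (st n).1 := by
    intro n
    induction n with
    | zero => exact hbigtop
    | succ n ih => rw [hst]; exact s7 n _ _ ih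
  set v : ℕ → (ℕ →₀ ℝ) := fun n => fv n (st n).1 (st n).2 with hv
  set L : ℕ → ℕ := fun n => (st n).2 with hL
  have t1 : ∀ j, st_tl (L j) (v j) := fun j => s2 j _ _ (hbig j)
  have t2 : ∀ j, st_hd (L (j + 1)) (v j) := fun j => s4 j _ _ (hbig j)
  have t3 : ∀ j, L j < L (j + 1) := fun j => s5 j _ _ (hbig j)
  have t4 : ∀ j, st_q (v j) = 1 := fun j => s3 j _ _ (hbig j)
  have t5 : ∀ j, v j ∈ (st j).1 := fun j => s1 j _ _ (hbig j)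
  have t6 : Antitone (fun n => (st n).1) := antitone_nat_of_succ_le fun n => s6 n _ _ (hbig n)
  have t7 : ∀ n, ∀ W'' : Submodule ℝ (ℕ →₀ ℝ), W'' ≤ (st n).1 → st_Big W'' →
      PW T (st (n + 1)).1 ≤ PW T W'' + 1 / ((n : ℝ) + 1) := fun n => s8 n _ _ (hbig n)
  have t3' : ∀ j, L j ≤ L (j + 1) := fun j => (t3 j).le
  have hLmono : Monotone L := monotone_nat_of_le_succ t3'
  set Wi : Submodule ℝ (ℕ →₀ ℝ) := Submodule.span ℝ (Set.range v) with hWi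
  have hWibig : st_Big Wi := by
    intro M
    exact ⟨v M, Submodule.subset_span ⟨M, rfl⟩, st_tl_mono (st_L_ge t3 M) (t1 M), t4 M⟩
  have htail : ∀ n, Wi ⊓ st_tlS (L n) ≤ (st n).1 := by
    rintro n x ⟨hx, hxt⟩
    obtain ⟨m, a, rfl⟩ := st_mem_span hx
    have hsplit : ∑ j ∈ range m, a j • v j =
        ∑ j ∈ range (min n m), a j • v j + ∑ j ∈ Ico (min n m) m, a j • v j := by
      rw [Finset.sum_range_add_sum_Ico _ (min_le_right _ _)]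
    have hhd : st_hd (L n) (∑ j ∈ range (min n m), a j • v j) :=
      st_hd_mono (hLmono (min_le_left _ _)) (st_sum_hd t2 t3' _ a)
    have hIco : ∑ j ∈ Ico (min n m) m, a j • v j ∈ st_tlS (L n) ⊓ (st n).1 := by
      apply Submodule.sum_mem
      intro j hj
      rw [Finset.mem_Ico] at hj
      have hnj : n ≤ j := by omega
      exact Submodule.smul_mem _ _ ⟨st_tl_mono (hLmono hnj) (t1 j), t6 hnj (t5 j)⟩
    have hz : ∑ j ∈ range (min n m), a j • v j = 0 := by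
      have h1 : st_tl (L n) (∑ j ∈ range (min n m), a j • v j) := by
        have : ∑ j ∈ range (min n m), a j • v j ∈ st_tlS (L n) := by
          have h2 := sub_mem hxt hIco.1
          rw [hsplit, add_sub_cancel_right] at h2
          exact h2
        exact this
      ext i
      rcases lt_or_ge i (L n) with h | h
      · rw [h1 i h]; rfl
      · rw [hhd i h]; rfl
    rw [hsplit, hz, zero_add]
    exact hIco.2
  refine ⟨Wi, hWibig, fun W' hW' hbW' => ?_⟩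
  have key : ∀ n : ℕ, PW T Wi ≤ PW T W' + 1 / ((n : ℝ) + 1) := by
    intro n
    have e1 : PW T Wi ≤ PW T (Wi ⊓ st_tlS (L (n + 1))) := PW_tail hT hWibig _
    have e2 : PW T (Wi ⊓ st_tlS (L (n + 1))) ≤ PW T (st (n + 1)).1 :=
      PW_mono hT (Big.tail hWibig _) (htail (n + 1))
    have e3 : PW T (st (n + 1)).1 ≤ PW T (W' ⊓ st_tlS (L n)) + 1 / ((n : ℝ) + 1) :=
      t7 n _ ((inf_le_inf_right _ hW').trans (htail n)) (Big.tail hbW' _)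
    have e4 : PW T (W' ⊓ st_tlS (L n)) ≤ PW T W' := PW_mono hT (Big.tail hbW' _) inf_le_left
    linarith
  have hlim : Tendsto (fun n : ℕ => PW T W' + 1 / ((n : ℝ) + 1)) atTop (𝓝 (PW T W' + 0)) :=
    tendsto_const_nhds.add tendsto_one_div_add_atTop_nhds_zero_nat
  rw [add_zero] at hlim
  exact ge_of_tendsto' hlim key

end

end Pool.Agent.Y278
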