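import Mathlib
import Pool.Agent.Y278.JN2

set_option autoImplicit false

open Filter Topology Finset

namespace Pool.Agent.Y278

open Pool.Agent.Helper902.NA

/-- sign of a Boolean -/
def sgn (b : Bool) : ℝ := if b then 1 else -1

theorem sgn_abs (b : Bool) : |sgn b| = 1 := by cases b <;> simp [sgn]
theorem sgn_ne (b : Bool) : sgn b ≠ 0 := by cases b <;> simp [sgn]
theorem sgn_mul_self (b : Bool) : sgn b * sgn b = 1 := by cases b <;> simp [sgn]
theorem sgn_beq (a b : Bool) : sgn a * sgn (a == b) = sgn b := by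
  cases a <;> cases b <;> simp [sgn]

theorem exists_sgn (t : ℝ) : ∃ b, sgn b * t = |t| := by
  rcases le_total 0 t with h | h
  · exact ⟨true, by simp [sgn, abs_of_nonneg h]⟩
  · exact ⟨false, by simp [sgn, abs_of_nonpos h]⟩

/-- finite families of successive blocks -/
theorem block_family {ι : Type*} [DecidableEq ι] (Q : ι → (ℕ →₀ ℝ) → Prop)
    (hQ : ∀ i M, ∃ v, st_tl M v ∧ st_q v = 1 ∧ Q i v) (N : ℕ) (S : Finset ι) :
    ∃ (w : ι → (ℕ →₀ ℝ)) (K : ℕ), (∀ i ∈ S, st_tl N (w i) ∧ st_q (w i) = 1 ∧ Q i (w i)) ∧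
      (∀ c : ι → ℝ, st_hd K (∑ i ∈ S, c i • w i)) ∧
      (∀ c : ι → ℝ, st_q (∑ i ∈ S, c i • w i) = ∑ i ∈ S, |c i|) ∧
      (∀ c : ι → ℝ, (∀ i, c i ≠ 0) → ∀ M, st_tl M (∑ i ∈ S, c i • w i) →
        ∀ i ∈ S, st_tl M (w i)) := by
  induction S using Finset.induction_on with
  | empty =>
    refine ⟨fun _ => 0, 0, by simp, ?_, ?_, by simp⟩
    · intro c i _; simp
    · intro c; simp [st_q]
  | insert a S ha ih =>
    obtain ⟨w, K, h1, h2, h3, h4⟩ := ih
    obtain ⟨v, hv1, hv2, hv3⟩ := hQ a (max K N)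
    obtain ⟨K', hK'⟩ := st_exists_hd v
    have hvK : st_tl K v := st_tl_mono (le_max_left _ _) hv1
    have hne : ∀ i ∈ S, Function.update w a v i = w i := by
      intro i hi
      rw [Function.update_of_ne]
      rintro rfl
      exact ha hi
    have hsum : ∀ c : ι → ℝ, ∑ i ∈ insert a S, c i • Function.update w a v i =
        ∑ i ∈ S, c i • w i + c a • v := by
      intro c
      rw [Finset.sum_insert ha, Function.update_self, add_comm]
      congr 1
      apply Finset.sum_congr rfl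
      intro i hi
      rw [hne i hi]
    refine ⟨Function.update w a v, max K K', ?_, ?_, ?_, ?_⟩
    · intro i hi
      rcases Finset.mem_insert.1 hi with rfl | hi
      · rw [Function.update_self]
        exact ⟨st_tl_mono (le_max_right _ _) hv1, hv2, hv3⟩
      · rw [hne i hi]
        exact h1 i hi
    · intro c
      rw [hsum]
      exact st_hd_add (st_hd_mono (le_max_left _ _) (h2 c))
        (st_hd_smul (st_hd_mono (le_max_right _ _) hK'))
    · intro c
      rw [hsum, st_q_add (h2 c) (v := c a • v), h3, st_q_smul, hv2, mul_one,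
        Finset.sum_insert ha, add_comm]
      intro i hi
      rw [Finsupp.smul_apply, hvK i hi, smul_zero]
    · intro c hc M hM
      rw [hsum] at hM
      have e : ∀ t, t < M → v t = 0 ∧ (∑ i ∈ S, c i • w i) t = 0 := by
        intro t ht
        have h5 := hM t ht
        rw [Finsupp.add_apply, Finsupp.smul_apply, smul_eq_mul] at h5
        rcases lt_or_ge t K with h | h
        · have h6 := hvK t h
          rw [h6, mul_zero, add_zero] at h5
          exact ⟨h6, h5⟩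
        · have h6 := h2 c t h
          rw [h6, zero_add] at h5
          exact ⟨(mul_eq_zero.1 h5).resolve_left (hc a), h6⟩
      intro i hi
      rcases Finset.mem_insert.1 hi with rfl | hi
      · rw [Function.update_self]
        exact fun t ht => (e t ht).1
      · rw [hne i hi]
        exact h4 c hc M (fun t ht => (e t ht).2) i hi

/-- a member of the span of blocks supported far out uses only late blocks -/
theorem span_tail {v : ℕ → (ℕ →₀ ℝ)} {L : ℕ → ℕ} (h1 : ∀ j, st_tl (L j) (v j))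
    (h2 : ∀ j, st_hd (L (j + 1)) (v j)) (h3 : ∀ j, L j ≤ L (j + 1)) {x : ℕ →₀ ℝ}
    (hx : x ∈ Submodule.span ℝ (Set.range v)) (n : ℕ) (hn : st_tl (L n) x) :
    ∃ (m : ℕ) (a : ℕ → ℝ), (∀ j, j < n → a j = 0) ∧ x = ∑ j ∈ range m, a j • v j := by
  have hLmono : Monotone L := monotone_nat_of_le_succ h3
  obtain ⟨m, a, rfl⟩ := st_mem_span hx
  refine ⟨m, fun j => if j < n then 0 else a j, fun j hj => if_pos hj, ?_⟩
  have hsplit : ∑ j ∈ range m, a j • v j =
      ∑ j ∈ range (min n m), a j • v j + ∑ j ∈ Ico (min n m) m, a j • v j := by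
    rw [Finset.sum_range_add_sum_Ico _ (min_le_right _ _)]
  have hhd : st_hd (L n) (∑ j ∈ range (min n m), a j • v j) :=
    st_hd_mono (hLmono (min_le_left _ _)) (st_sum_hd h2 h3 _ a)
  have hIco : ∑ j ∈ Ico (min n m) m, a j • v j ∈ st_tlS (L n) := by
    apply Submodule.sum_mem
    intro j hj
    rw [Finset.mem_Ico] at hj
    have hnj : n ≤ j := by omega
    exact Submodule.smul_mem _ _ (show v j ∈ st_tlS (L n) from st_tl_mono (hLmono hnj) (h1 j))
  have hz : ∑ j ∈ range (min n m), a j • v j = 0 := by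
    have g1 : st_tl (L n) (∑ j ∈ range (min n m), a j • v j) := by
      have : ∑ j ∈ range (min n m), a j • v j ∈ st_tlS (L n) := by
        have g2 := sub_mem (show _ ∈ st_tlS (L n) from hn) hIco
        rw [hsplit, add_sub_cancel_right] at g2
        exact g2
      exact this
    ext i
    rcases lt_or_ge i (L n) with h | h
    · rw [g1 i h]; rfl
    · rw [hhd i h]; rfl
  rw [hsplit, hz, zero_add]
  rw [← Finset.sum_range_add_sum_Ico (fun j => (if j < n then 0 else a j) • v j)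
    (min_le_right n m)]
  have e1 : ∑ j ∈ range (min n m), (if j < n then 0 else a j) • v j = 0 := by
    apply Finset.sum_eq_zero
    intro j hj
    rw [Finset.mem_range] at hj
    rw [if_pos (by omega), zero_smul]
  have e2 : ∑ j ∈ Ico (min n m) m, (if j < n then 0 else a j) • v j =
      ∑ j ∈ Ico (min n m) m, a j • v j := by
    apply Finset.sum_congr rfl
    intro j hj
    rw [Finset.mem_Ico] at hj
    rw [if_neg (by omega)]
  rw [e1, e2, zero_add]

variable {E : Type*} [NormedAddCommGroup E] [NormedSpace ℝ E]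

/-- the first `k` points act as independent signs on blocks far out -/
def Hk (T : (ℕ →₀ ℝ) →ₗ[ℝ] (E →L[ℝ] ℝ)) (W : Submodule ℝ (ℕ →₀ ℝ)) (ε : ℝ) (k : ℕ)
    (x : ℕ → E) : Prop :=
  ∀ s : Fin k → Bool, ∀ M, ∃ v ∈ W, st_tl M v ∧ st_q v = 1 ∧
    ∀ i : Fin k, ε / 2 ≤ sgn (s i) * T v (x i)

theorem tree_step (T : (ℕ →₀ ℝ) →ₗ[ℝ] (E →L[ℝ] ℝ)) (W : Submodule ℝ (ℕ →₀ ℝ)) (ε : ℝ)
    (hε : 0 < ε)
    (h1 : ∀ x : E, ‖x‖ ≤ 1 → ∀ η : ℝ, 0 < η → ∃ M, ∀ v ∈ W, st_tl M v → st_q v = 1 →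
      |T v x| ≤ ε + η)
    (h2 : ∀ W' : Submodule ℝ (ℕ →₀ ℝ), W' ≤ W → st_Big W' → ∀ η : ℝ, 0 < η → Asy T W' (ε - η))
    (k : ℕ) (x : ℕ → E) (H : Hk T W ε k x) :
    ∃ y : E, ‖y‖ ≤ 1 ∧ Hk T W ε (k + 1) (Function.update x k y) := by
  classical
  set κ : ℝ := 1 / 2 ^ (k + 1) with hκ
  have hκ0 : 0 < κ := by positivity
  set η : ℝ := ε / 2 ^ (k + 3) with hη
  have hη0 : 0 < η := by positivity
  let ι := (Fin k → Bool) × Bool
  have hcard : (Fintype.card ι : ℝ) = 2 ^ (k + 1) := by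
    simp [ι, pow_succ]
  let Q : ι → (ℕ →₀ ℝ) → Prop := fun i v => v ∈ W ∧
    ∀ j : Fin k, ε / 2 ≤ sgn (i.1 j) * T v (x j)
  have hQ : ∀ (i : ι) (M : ℕ), ∃ v, st_tl M v ∧ st_q v = 1 ∧ Q i v := by
    intro i M
    obtain ⟨v, g1, g2, g3, g4⟩ := H i.1 M
    exact ⟨v, g2, g3, g1, g4⟩
  let P : (ℕ →₀ ℝ) → Prop := fun v => ∃ w : ι → (ℕ →₀ ℝ),
    v = ∑ i, (sgn i.2 * κ) • w i ∧ (∀ i, st_q (w i) = 1 ∧ Q i (w i)) ∧
    (∀ M, st_tl M v → ∀ i, st_tl M (w i)) ∧ st_q v = 1
  have hP : ∀ M, ∃ v, st_tl M v ∧ P v := by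
    intro M
    obtain ⟨w, K, g1, g2, g3, g4⟩ := block_family Q hQ M Finset.univ
    refine ⟨∑ i, (sgn i.2 * κ) • w i, ?_, w, rfl, fun i => (g1 i (Finset.mem_univ i)).2, ?_, ?_⟩
    · have : ∑ i, (sgn i.2 * κ) • w i ∈ st_tlS M := by
        apply Submodule.sum_mem
        intro i _
        exact Submodule.smul_mem _ _ (show w i ∈ st_tlS M from (g1 i (Finset.mem_univ i)).1)
      exact this
    · intro M' hM' i
      exact g4 (fun i => sgn i.2 * κ) (fun i => mul_ne_zero (sgn_ne _) hκ0.ne') M' hM' i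
        (Finset.mem_univ i)
    · rw [g3 (fun i => sgn i.2 * κ)]
      have : ∀ i : ι, |sgn i.2 * κ| = κ := by
        intro i
        rw [abs_mul, sgn_abs, one_mul, abs_of_pos hκ0]
      rw [Finset.sum_congr rfl (fun i _ => this i), Finset.sum_const, Finset.card_univ, nsmul_eq_mul,
        hcard, hκ]
      field_simp
  obtain ⟨G, L, hG, t1, t2, t3, -⟩ := st_blocks P hP 0
  have t3' : ∀ j, L j ≤ L (j + 1) := fun j => (t3 j).le
  have hPW : ∀ j, G j ∈ W := by
    intro j
    obtain ⟨w, e, f, -⟩ := hG j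
    rw [e]
    apply Submodule.sum_mem
    intro i _
    exact Submodule.smul_mem _ _ (f i).2.1
  have hq : ∀ j, st_q (G j) = 1 := by
    intro j
    obtain ⟨w, -, -, -, e⟩ := hG j
    exact e
  set W' : Submodule ℝ (ℕ →₀ ℝ) := Submodule.span ℝ (Set.range G) with hW'
  have hW'W : W' ≤ W := by
    rw [hW', Submodule.span_le]
    rintro _ ⟨j, rfl⟩
    exact hPW j
  have hW'big : st_Big W' := by
    intro M
    exact ⟨G M, Submodule.subset_span ⟨M, rfl⟩, st_tl_mono (st_L_ge t3 M) (t1 M), hq M⟩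
  obtain ⟨y, hy, hy2⟩ := h2 W' hW'W hW'big η hη0
  obtain ⟨M1, hM1⟩ := h1 y hy η hη0
  have claim : ∀ M, ∃ j, M ≤ L j ∧ ε - η < |T (G j) y| := by
    intro M
    obtain ⟨v, g1, g2, g3, g4⟩ := hy2 (L M)
    obtain ⟨m, a, ha, rfl⟩ := span_tail t1 t2 t3' g1 M g2
    rw [st_sum_q t1 t2 t3' hq] at g3
    by_contra hcon
    push Not at hcon
    have hle : |T (∑ j ∈ range m, a j • G j) y| ≤ ε - η := by
      calc |T (∑ j ∈ range m, a j • G j) y|
          = |∑ j ∈ range m, a j * T (G j) y| := by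
            rw [map_sum, _root_.sum_apply]
            simp only [map_smul, smul_apply, smul_eq_mul]
        _ ≤ ∑ j ∈ range m, |a j * T (G j) y| := Finset.abs_sum_le_sum_abs _ _
        _ ≤ ∑ j ∈ range m, |a j| * (ε - η) := by
            apply Finset.sum_le_sum
            intro j _
            rw [abs_mul]
            rcases lt_or_ge j M with h | h
            · rw [ha j h]; simp
            · exact mul_le_mul_of_nonneg_left (hcon j (h.trans (st_L_ge t3 j))) (abs_nonneg _)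
        _ = ε - η := by rw [← Finset.sum_mul, g3, one_mul]
    linarith
  refine ⟨y, hy, fun s M => ?_⟩
  obtain ⟨j, hj, hj2⟩ := claim (max M M1)
  obtain ⟨w, e1, e2, e3, -⟩ := hG j
  have etl : ∀ i, st_tl (L j) (w i) := e3 _ (t1 j)
  obtain ⟨b0, hb0⟩ := exists_sgn (T (G j) y)
  have habs : ∀ i, |T (w i) y| ≤ ε + η := fun i =>
    hM1 (w i) (e2 i).2.1 (st_tl_mono ((le_max_right _ _).trans hj) (etl i)) (e2 i).1
  have hterm : ∀ i : ι, ε / 2 ≤ sgn b0 * sgn i.2 * T (w i) y := by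
    intro i
    have hsum : ∑ i : ι, κ * (sgn b0 * sgn i.2 * T (w i) y) = |T (G j) y| := by
      rw [← hb0, e1, map_sum, _root_.sum_apply, Finset.mul_sum]
      apply Finset.sum_congr rfl
      intro i _
      rw [map_smul, smul_apply, smul_eq_mul]
      ring
    rw [← Finset.add_sum_erase _ _ (Finset.mem_univ i)] at hsum
    have hle : ∑ i' ∈ (Finset.univ : Finset ι).erase i, κ * (sgn b0 * sgn i'.2 * T (w i') y) ≤
        ∑ i' ∈ (Finset.univ : Finset ι).erase i, κ * (ε + η) := by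
      apply Finset.sum_le_sum
      intro i' _
      apply mul_le_mul_of_nonneg_left _ hκ0.le
      refine (le_abs_self _).trans ?_
      rw [abs_mul, abs_mul, sgn_abs, sgn_abs, one_mul, one_mul]
      exact habs i'
    rw [Finset.sum_const, Finset.card_erase_of_mem (Finset.mem_univ i), Finset.card_univ,
      nsmul_eq_mul] at hle
    have hcard1 : 1 ≤ Fintype.card ι := Fintype.card_pos_iff.2 ⟨i⟩
    rw [Nat.cast_sub hcard1, hcard, Nat.cast_one] at hle
    have hk : κ * 2 ^ (k + 1) = 1 := by rw [hκ]; field_simp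
    have hη' : η * 2 ^ (k + 2) = ε / 2 := by
      rw [hη]
      have : (2 : ℝ) ^ (k + 3) = 2 ^ (k + 2) * 2 := by ring
      rw [this]
      field_simp
    have h5 : κ * (sgn b0 * sgn i.2 * T (w i) y) ≥ ε - η - (2 ^ (k + 1) - 1) * (κ * (ε + η)) := by
      linarith
    have h6 : sgn b0 * sgn i.2 * T (w i) y ≥ 2 ^ (k + 1) * (ε - η) - (2 ^ (k + 1) - 1) * (ε + η) := by
      have hp : (0 : ℝ) < 2 ^ (k + 1) := by positivity
      have := mul_le_mul_of_nonneg_left h5 hp.le
      have r1 : (2 : ℝ) ^ (k + 1) * (κ * (sgn b0 * sgn i.2 * T (w i) y)) =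
          sgn b0 * sgn i.2 * T (w i) y := by
        rw [← mul_assoc, mul_comm ((2 : ℝ) ^ (k + 1)) κ, hk, one_mul]
      have r2 : (2 : ℝ) ^ (k + 1) * (ε - η - (2 ^ (k + 1) - 1) * (κ * (ε + η))) =
          2 ^ (k + 1) * (ε - η) - (2 ^ (k + 1) - 1) * (ε + η) := by
        have : (2 : ℝ) ^ (k + 1) * (ε - η - (2 ^ (k + 1) - 1) * (κ * (ε + η))) =
          2 ^ (k + 1) * (ε - η) - (2 ^ (k + 1) - 1) * ((κ * 2 ^ (k + 1)) * (ε + η)) := by ring
        rw [this, hk, one_mul]
      linarith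
    have h7 : (2 : ℝ) ^ (k + 1) * (ε - η) - (2 ^ (k + 1) - 1) * (ε + η) =
        ε + η - η * 2 ^ (k + 2) := by ring
    rw [h7, hη'] at h6
    linarith
  refine ⟨w (fun i => s i.castSucc, b0 == s (Fin.last k)), (e2 _).2.1,
    st_tl_mono ((le_max_left _ _).trans hj) (etl _), (e2 _).1, ?_⟩
  intro i
  refine Fin.lastCases ?_ (fun i => ?_) i
  · have := hterm (fun i => s i.castSucc, b0 == s (Fin.last k))
    simp only [sgn_beq] at this
    simpa using this
  · have h8 := (e2 (fun i => s i.castSucc, b0 == s (Fin.last k))).2.2 i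
    have h9 : (Function.update x k y) (i.castSucc : Fin (k + 1)) = x i := by
      rw [Function.update_of_ne]
      · rfl
      · have := i.2
        simp only [Fin.val_castSucc]
        omega
    rw [h9]
    exact h8

theorem tree (T : (ℕ →₀ ℝ) →ₗ[ℝ] (E →L[ℝ] ℝ)) (hT : ∀ v, ‖T v‖ ≤ st_q v)
    (W : Submodule ℝ (ℕ →₀ ℝ)) (hW : st_Big W) (ε : ℝ)
    (hε : 0 < ε)
    (h1 : ∀ x : E, ‖x‖ ≤ 1 → ∀ η : ℝ, 0 < η → ∃ M, ∀ v ∈ W, st_tl M v → st_q v = 1 →
      |T v x| ≤ ε + η)
    (h2 : ∀ W' : Submodule ℝ (ℕ →₀ ℝ), W' ≤ W → st_Big W' → ∀ η : ℝ, 0 < η → Asy T W' (ε - η)) :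
    ∃ x : ℕ → E, (∀ n, ‖x n‖ ≤ 1) ∧ ∀ (k : ℕ) (s : Fin k → Bool), ∃ f : E →L[ℝ] ℝ, ‖f‖ ≤ 1 ∧
      ∀ i : Fin k, ε / 2 ≤ sgn (s i) * f (x i) := by
  classical
  have step := tree_step T W ε hε h1 h2
  choose! y hy1 hy2 using step
  let X : ℕ → (ℕ → E) := fun n =>
    Nat.rec (fun _ => 0) (fun k x => Function.update x k (y k x)) n
  have hX : ∀ k, X (k + 1) = Function.update (X k) k (y k (X k)) := fun k => rfl
  have hH : ∀ k, Hk T W ε k (X k) := by
    intro k
    induction k with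
    | zero =>
      intro s M
      obtain ⟨v, g1, g2, g3⟩ := hW M
      exact ⟨v, g1, g2, g3, fun i => i.elim0⟩
    | succ k ih => rw [hX]; exact hy2 k _ ih
  refine ⟨fun n => y n (X n), fun n => hy1 n _ (hH n), fun k s => ?_⟩
  have hXx : ∀ k, ∀ i, i < k → X k i = y i (X i) := by
    intro k
    induction k with
    | zero => intro i hi; omega
    | succ k ih =>
      intro i hi
      rw [hX]
      rcases Nat.lt_succ_iff_lt_or_eq.1 hi with h | h
      · rw [Function.update_of_ne (by omega), ih i h]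
      · subst h
        rw [Function.update_self]
  obtain ⟨v, g1, g2, g3, g4⟩ := hH k s 0
  refine ⟨T v, (hT v).trans g3.le, fun i => ?_⟩
  have := g4 i
  rw [hXx k i i.2] at this
  exact this

end Pool.Agent.Y278
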