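import Mathlib
import Pool.Agent.Y278.JN1
import Pool.Agent.Y278.JN3

set_option autoImplicit false

open Filter Topology Finset

namespace Pool.Agent.Y278

open Pool.Agent.Helper902.NA

theorem sgn_orth {N : ℕ} (n m : Fin N) (h : n ≠ m) :
    ∑ s : Fin N → Bool, sgn (s n) * sgn (s m) = 0 := by
  classical
  let e : (Fin N → Bool) ≃ (Fin N → Bool) :=
    { toFun := fun s => Function.update s n (!(s n))
      invFun := fun s => Function.update s n (!(s n))
      left_inv := fun s => by simp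
      right_inv := fun s => by simp }
  have h1 : ∑ s : Fin N → Bool, sgn (s n) * sgn (s m) =
      ∑ s : Fin N → Bool, sgn (e s n) * sgn (e s m) :=
    (Equiv.sum_comp e (fun s => sgn (s n) * sgn (s m))).symm
  have h2 : ∀ s : Fin N → Bool, sgn (e s n) * sgn (e s m) = - (sgn (s n) * sgn (s m)) := by
    intro s
    have e1 : e s n = !(s n) := by simp [e]
    have e2 : e s m = s m := by
      show Function.update s n (!(s n)) m = s m
      rw [Function.update_of_ne h.symm]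
    rw [e1, e2]
    cases s n <;> cases s m <;> simp [sgn]
  rw [Finset.sum_congr rfl (fun s _ => h2 s), Finset.sum_neg_distrib] at h1
  linarith

theorem sgn_parseval {N : ℕ} (c : Fin N → ℝ) :
    ∑ s : Fin N → Bool, (∑ n, c n * sgn (s n)) ^ 2 = 2 ^ N * ∑ n, c n ^ 2 := by
  classical
  have h1 : ∀ s : Fin N → Bool, (∑ n, c n * sgn (s n)) ^ 2 =
      ∑ n, ∑ m, c n * c m * (sgn (s n) * sgn (s m)) := by
    intro s
    rw [sq, Finset.sum_mul_sum]
    apply Finset.sum_congr rfl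
    intro n _
    apply Finset.sum_congr rfl
    intro m _
    ring
  rw [Finset.sum_congr rfl (fun s _ => h1 s), Finset.sum_comm, Finset.mul_sum]
  apply Finset.sum_congr rfl
  intro n _
  rw [Finset.sum_comm]
  rw [Finset.sum_eq_single n]
  · have h2 : ∀ s : Fin N → Bool, c n * c n * (sgn (s n) * sgn (s n)) = c n ^ 2 := by
      intro s
      rw [sgn_mul_self]; ring
    rw [Finset.sum_congr rfl (fun s _ => h2 s), Finset.sum_const, Finset.card_univ, nsmul_eq_mul]
    simp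
  · intro m _ hm
    rw [← Finset.mul_sum, sgn_orth n m hm.symm, mul_zero]
  · intro h; exact absurd (Finset.mem_univ _) h

/-- Bessel's inequality for averages against signs -/
theorem sgn_bessel {N : ℕ} (F : (Fin N → Bool) → ℝ) (R : ℝ) (_hR : 0 ≤ R) (hF : ∀ s, |F s| ≤ R) :
    ∑ n : Fin N, ((2 ^ N : ℝ)⁻¹ * ∑ s, sgn (s n) * F s) ^ 2 ≤ R ^ 2 := by
  classical
  set c : Fin N → ℝ := fun n => (2 ^ N : ℝ)⁻¹ * ∑ s, sgn (s n) * F s with hc
  have hp : (0 : ℝ) < 2 ^ N := by positivity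
  have h1 : ∑ s : Fin N → Bool, (∑ n, c n * sgn (s n)) * F s = 2 ^ N * ∑ n, c n ^ 2 := by
    have : ∀ s : Fin N → Bool, (∑ n, c n * sgn (s n)) * F s = ∑ n, c n * (sgn (s n) * F s) := by
      intro s
      rw [Finset.sum_mul]
      apply Finset.sum_congr rfl
      intro n _
      ring
    rw [Finset.sum_congr rfl (fun s _ => this s), Finset.sum_comm, Finset.mul_sum]
    apply Finset.sum_congr rfl
    intro n _
    rw [← Finset.mul_sum]
    have h2 : ∑ s, sgn (s n) * F s = 2 ^ N * c n := by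
      simp only [hc]
      rw [← mul_assoc, mul_inv_cancel₀ hp.ne', one_mul]
    rw [h2]
    ring
  have h2 := sgn_parseval c
  have h3 : ∑ s : Fin N → Bool, (F s) ^ 2 ≤ 2 ^ N * R ^ 2 := by
    calc ∑ s : Fin N → Bool, (F s) ^ 2 ≤ ∑ s : Fin N → Bool, R ^ 2 := by
          apply Finset.sum_le_sum
          intro s _
          exact sq_le_sq' (by linarith [(abs_le.1 (hF s)).1]) (abs_le.1 (hF s)).2
      _ = 2 ^ N * R ^ 2 := by
          rw [Finset.sum_const, Finset.card_univ, nsmul_eq_mul]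
          simp
  have h4 : 0 ≤ ∑ s : Fin N → Bool, ((∑ n, c n * sgn (s n)) - F s) ^ 2 :=
    Finset.sum_nonneg fun _ _ => sq_nonneg _
  have h5 : ∑ s : Fin N → Bool, ((∑ n, c n * sgn (s n)) - F s) ^ 2 =
      ∑ s : Fin N → Bool, (∑ n, c n * sgn (s n)) ^ 2 - 2 * ∑ s : Fin N → Bool, (∑ n, c n * sgn (s n)) * F s
        + ∑ s : Fin N → Bool, (F s) ^ 2 := by
    rw [Finset.mul_sum, ← Finset.sum_sub_distrib, ← Finset.sum_add_distrib]
    apply Finset.sum_congr rfl
    intro s _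
    ring
  rw [h5, h1, h2] at h4
  have h6 : 2 ^ N * ∑ n, c n ^ 2 ≤ 2 ^ N * R ^ 2 := by linarith
  exact le_of_mul_le_mul_left h6 hp

/-- ultrafilter limits of bounded sequences of functionals -/
theorem jn_ultralimit {W : Type*} [NormedAddCommGroup W] [NormedSpace ℝ W]
    (U : Ultrafilter ℕ) (g : ℕ → (W →L[ℝ] ℝ)) (R : ℝ) (hg : ∀ n, ‖g n‖ ≤ R) :
    ∃ G : W →L[ℝ] ℝ, ‖G‖ ≤ R ∧ ∀ w, Tendsto (fun n => g n w) U (𝓝 (G w)) := by
  have hK := WeakDual.isCompact_closedBall (𝕜 := ℝ) (E := W) 0 R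
  have h1 : ∀ n, StrongDual.toWeakDual (g n) ∈ (WeakDual.toStrongDual ⁻¹' Metric.closedBall (0 : StrongDual ℝ W) R) := by
    intro n
    simpa using hg n
  have h2 := (isCompact_iff_ultrafilter_le_nhds.1 hK) (U.map (fun n => StrongDual.toWeakDual (g n))) (by
    rw [le_principal_iff]
    exact Filter.mem_map.2 (Filter.Eventually.of_forall h1))
  obtain ⟨G, hG0, hG⟩ := h2
  refine ⟨WeakDual.toStrongDual G, by simpa using hG0, fun w => ?_⟩
  have h3 : Tendsto (fun n => StrongDual.toWeakDual (g n)) U (𝓝 G) := hG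
  have h4 := ((WeakDual.eval_continuous w).tendsto G).comp h3
  exact h4

variable {E : Type*} [NormedAddCommGroup E] [NormedSpace ℝ E]

/-- the Rademacher trick -/
theorem rademacher (x : ℕ → E) (hx : ∀ n, ‖x n‖ ≤ 1) (δ : ℝ) (_hδ : 0 < δ)
    (h : ∀ (k : ℕ) (s : Fin k → Bool), ∃ f : E →L[ℝ] ℝ, ‖f‖ ≤ 1 ∧
      ∀ i : Fin k, δ ≤ sgn (s i) * f (x i)) :
    ∃ v : ℕ → (E →L[ℝ] ℝ), (∀ n, δ ≤ ‖v n‖) ∧ (∀ n, ‖v n‖ ≤ 1) ∧
      ∀ z, Tendsto (fun n => v n z) atTop (𝓝 0) := by
  classical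
  choose f hf1 hf2 using h
  let V : ℕ → ℕ → (E →L[ℝ] ℝ) := fun N n =>
    if h : n < N then (2 ^ N : ℝ)⁻¹ • ∑ s : Fin N → Bool, sgn (s ⟨n, h⟩) • f N s else 0
  have hVdef : ∀ N n (h : n < N), V N n = (2 ^ N : ℝ)⁻¹ • ∑ s : Fin N → Bool, sgn (s ⟨n, h⟩) • f N s :=
    fun N n h => dif_pos h
  have hVapp : ∀ N n (h : n < N) z, V N n z = (2 ^ N : ℝ)⁻¹ * ∑ s : Fin N → Bool,
      sgn (s ⟨n, h⟩) * f N s z := by
    intro N n h z
    rw [hVdef N n h, smul_apply, smul_eq_mul, _root_.sum_apply]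
    simp only [smul_apply, smul_eq_mul]
  have hVnorm : ∀ N n, ‖V N n‖ ≤ 1 := by
    intro N n
    by_cases h : n < N
    · rw [hVdef N n h, norm_smul, norm_inv, norm_pow]
      have hp : (0 : ℝ) < 2 ^ N := by positivity
      have h2 : ‖(2 : ℝ)‖ = 2 := by norm_num
      rw [h2, inv_mul_le_iff₀ hp, mul_one]
      refine (norm_sum_le _ _).trans ?_
      calc ∑ s : Fin N → Bool, ‖sgn (s ⟨n, h⟩) • f N s‖ ≤ ∑ s : Fin N → Bool, (1 : ℝ) := by
            apply Finset.sum_le_sum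
            intro s _
            rw [norm_smul, Real.norm_eq_abs, sgn_abs, one_mul]
            exact hf1 N s
        _ = 2 ^ N := by
            rw [Finset.sum_const, Finset.card_univ, nsmul_eq_mul]
            simp
    · have : V N n = 0 := dif_neg h
      rw [this]; simp
  have hVx : ∀ N n, n < N → δ ≤ V N n (x n) := by
    intro N n h
    rw [hVapp N n h]
    have hp : (0 : ℝ) < 2 ^ N := by positivity
    rw [le_inv_mul_iff₀ hp]
    calc 2 ^ N * δ = ∑ s : Fin N → Bool, δ := by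
          rw [Finset.sum_const, Finset.card_univ, nsmul_eq_mul]
          simp
      _ ≤ ∑ s : Fin N → Bool, sgn (s ⟨n, h⟩) * f N s (x n) := by
          apply Finset.sum_le_sum
          intro s _
          exact hf2 N s ⟨n, h⟩
  have hbes : ∀ N m z, m ≤ N → ∑ n ∈ range m, (V N n z) ^ 2 ≤ ‖z‖ ^ 2 := by
    intro N m z hm
    have h1 : ∑ n ∈ range m, (V N n z) ^ 2 ≤ ∑ n ∈ range N, (V N n z) ^ 2 :=
      Finset.sum_le_sum_of_subset_of_nonneg (Finset.range_mono hm) fun _ _ _ => sq_nonneg _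
    refine h1.trans ?_
    rw [Finset.sum_range]
    have h2 := sgn_bessel (N := N) (fun s => f N s z) ‖z‖ (norm_nonneg _) (fun s => by
      calc |f N s z| = ‖f N s z‖ := rfl
        _ ≤ ‖f N s‖ * ‖z‖ := (f N s).le_opNorm z
        _ ≤ 1 * ‖z‖ := mul_le_mul_of_nonneg_right (hf1 N s) (norm_nonneg _)
        _ = ‖z‖ := one_mul _)
    refine le_trans (le_of_eq ?_) h2
    apply Finset.sum_congr rfl
    intro n _
    rw [hVapp N n n.2]
  have hU : (hyperfilter ℕ : Filter ℕ) ≤ atTop := Nat.hyperfilter_le_atTop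
  have hlim : ∀ n, ∃ G : E →L[ℝ] ℝ, ‖G‖ ≤ 1 ∧
      ∀ w, Tendsto (fun N => V N n w) (hyperfilter ℕ : Filter ℕ) (𝓝 (G w)) :=
    fun n => jn_ultralimit (hyperfilter ℕ) (fun N => V N n) 1 (fun N => hVnorm N n)
  choose v hv1 hv2 using hlim
  have hvx : ∀ n, δ ≤ v n (x n) := by
    intro n
    refine ge_of_tendsto (hv2 n (x n)) (hU ?_)
    filter_upwards [eventually_gt_atTop n] with N hN
    exact hVx N n hN
  have hvb : ∀ m z, ∑ n ∈ range m, (v n z) ^ 2 ≤ ‖z‖ ^ 2 := by
    intro m z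
    have h1 : Tendsto (fun N => ∑ n ∈ range m, (V N n z) ^ 2) (hyperfilter ℕ : Filter ℕ)
        (𝓝 (∑ n ∈ range m, (v n z) ^ 2)) :=
      tendsto_finsetSum _ fun n _ => (hv2 n z).pow 2
    refine le_of_tendsto h1 (hU ?_)
    filter_upwards [eventually_ge_atTop m] with N hN
    exact hbes N m z hN
  refine ⟨v, fun n => ?_, hv1, fun z => ?_⟩
  · calc δ ≤ v n (x n) := hvx n
      _ ≤ ‖v n (x n)‖ := le_abs_self _
      _ ≤ ‖v n‖ * ‖x n‖ := (v n).le_opNorm _
      _ ≤ ‖v n‖ * 1 := mul_le_mul_of_nonneg_left (hx n) (norm_nonneg _)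
      _ = ‖v n‖ := mul_one _
  · have hs : Summable (fun n => (v n z) ^ 2) :=
      summable_of_sum_range_le (fun _ => sq_nonneg _) (fun m => hvb m z)
    have h1 := hs.tendsto_atTop_zero
    rw [tendsto_zero_iff_abs_tendsto_zero]
    have h2 := (Real.continuous_sqrt.tendsto 0).comp h1
    rw [Real.sqrt_zero] at h2
    refine h2.congr fun n => ?_
    simp [Real.sqrt_sq_eq_abs]

/-- **Josefson–Nissenzweig theorem** (real scalars): the dual of an infinite-dimensional normed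
space contains a sequence of norm-one functionals that tends to zero pointwise. -/
theorem josefson_nissenzweig (hE : ¬ FiniteDimensional ℝ E) :
    ∃ v : ℕ → (E →L[ℝ] ℝ), (∀ n, ‖v n‖ = 1) ∧ ∀ x, Tendsto (fun n => v n x) atTop (𝓝 0) := by
  classical
  -- it is enough to be bounded away from zero
  suffices H : ∃ (v : ℕ → (E →L[ℝ] ℝ)) (c : ℝ), 0 < c ∧ (∀ n, c ≤ ‖v n‖) ∧
      ∀ x, Tendsto (fun n => v n x) atTop (𝓝 0) by
    obtain ⟨v, c, hc, h1, h2⟩ := H
    refine ⟨fun n => ‖v n‖⁻¹ • v n, fun n => ?_, fun x => ?_⟩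
    · rw [norm_smul, norm_inv, norm_norm, inv_mul_cancel₀]
      exact (lt_of_lt_of_le hc (h1 n)).ne'
    · have h3 : Tendsto (fun n => c⁻¹ * |v n x|) atTop (𝓝 (c⁻¹ * |0|)) := ((h2 x).abs).const_mul _
      rw [abs_zero, mul_zero] at h3
      refine squeeze_zero_norm (fun n => ?_) h3
      have hpos : 0 < ‖v n‖ := lt_of_lt_of_le hc (h1 n)
      rw [smul_apply, norm_smul, norm_inv, norm_norm, Real.norm_eq_abs]
      exact mul_le_mul_of_nonneg_right (inv_anti₀ hc (h1 n)) (abs_nonneg _)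
  rcases jn_first hE with ⟨v, c, C, hc, h1, -, h3⟩ | ⟨f, c, hc, hf, hlow⟩
  · exact ⟨v, c, hc, h1, h3⟩
  · set T : (ℕ →₀ ℝ) →ₗ[ℝ] (E →L[ℝ] ℝ) := Finsupp.linearCombination ℝ f with hT
    have hTv : ∀ (v : ℕ →₀ ℝ) (M : ℕ), st_hd M v → T v = ∑ i ∈ range M, v i • f i := by
      intro v M hM
      rw [hT, Finsupp.linearCombination_apply]
      refine Finsupp.sum_of_support_subset v ?_ _ (fun i _ => zero_smul ℝ (f i))
      intro i hi
      rw [Finset.mem_range]
      by_contra hcon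
      exact (Finsupp.mem_support_iff.1 hi) (hM i (not_lt.1 hcon))
    have hcq : ∀ v, c * st_q v ≤ ‖T v‖ := by
      intro v
      obtain ⟨M, hM⟩ := st_exists_hd v
      rw [hTv v M hM, st_q_eq hM]
      exact hlow M (fun i => v i)
    have hCq : ∀ v, ‖T v‖ ≤ st_q v := by
      intro v
      obtain ⟨M, hM⟩ := st_exists_hd v
      rw [hTv v M hM, st_q_eq hM]
      refine (norm_sum_le _ _).trans (Finset.sum_le_sum fun i _ => ?_)
      rw [norm_smul, Real.norm_eq_abs]
      calc |v i| * ‖f i‖ ≤ |v i| * 1 := mul_le_mul_of_nonneg_left (hf i) (abs_nonneg _)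
        _ = |v i| := mul_one _
    obtain ⟨W, hW, hst⟩ := PW_stab hCq
    set ε : ℝ := PW T W with hε
    have hε0 : 0 ≤ ε := PW_nonneg hCq hW
    have h1 : ∀ x : E, ‖x‖ ≤ 1 → ∀ η : ℝ, 0 < η → ∃ M, ∀ v ∈ W, st_tl M v → st_q v = 1 →
        |T v x| ≤ ε + η := by
      intro x hx η hη
      by_contra hcon
      push Not at hcon
      have h2 : Asy T W (ε + η) := ⟨x, hx, fun M => by
        obtain ⟨v, g1, g2, g3, g4⟩ := hcon M
        exact ⟨v, g1, g2, g3, g4⟩⟩
      have h3 : ε + η ≤ ε := le_csSup (PW_bdd hCq W) h2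
      linarith
    have h2 : ∀ W' : Submodule ℝ (ℕ →₀ ℝ), W' ≤ W → st_Big W' → ∀ η : ℝ, 0 < η →
        Asy T W' (ε - η) := by
      intro W' hW' hbW' η hη
      have h3 := hst W' hW' hbW'
      exact PW_spec hbW' (by linarith)
    rcases hε0.eq_or_lt with hz | hpos
    · -- the blocks are weak* null
      choose v g1 g2 g3 using hW
      refine ⟨fun n => T (v n), c, hc, fun n => ?_, fun x => ?_⟩
      · have := hcq (v n)
        rwa [g3, mul_one] at this
      · have hball : ∀ x : E, ‖x‖ ≤ 1 → Tendsto (fun n => T (v n) x) atTop (𝓝 0) := by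
          intro x hx
          rw [Metric.tendsto_atTop]
          intro η hη
          obtain ⟨M, hM⟩ := h1 x hx (η / 2) (by linarith)
          refine ⟨M, fun n hn => ?_⟩
          have := hM (v n) (g1 n) (st_tl_mono hn (g2 n)) (g3 n)
          rw [← hz, zero_add] at this
          rw [Real.dist_eq, sub_zero]
          linarith
        rcases eq_or_ne x 0 with rfl | hx
        · simp
        · have hxpos : 0 < ‖x‖ := norm_pos_iff.mpr hx
          have h3 := (hball (‖x‖⁻¹ • x) (by rw [norm_smul]; simp [hxpos.ne'])).const_mul ‖x‖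
          rw [mul_zero] at h3
          refine h3.congr fun n => ?_
          rw [map_smul, smul_eq_mul, ← mul_assoc, mul_inv_cancel₀ hxpos.ne', one_mul]
    · obtain ⟨x, hx, hxs⟩ := tree T hCq W hW ε hpos h1 h2
      obtain ⟨v, h3, -, h5⟩ := rademacher x hx (ε / 2) (by linarith) hxs
      exact ⟨v, ε / 2, by linarith, h3, h5⟩

end Pool.Agent.Y278
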