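import Mathlib
-- import your own Pool.Agent.* helpers here

set_option autoImplicit false


namespace Pool.Agent.Y278.Nested

/-- number of elements `x` of `T` with `x + u ∉ T` -/
def r (u : ℤ) (T : Finset ℤ) : ℕ := (T.filter (fun x => x + u ∉ T)).card

/-- number of elements `x` of `T` with `x + u ∈ T` -/
def q (u : ℤ) (T : Finset ℤ) : ℕ := (T.filter (fun x => x + u ∈ T)).card

theorem q_add_r (u : ℤ) (T : Finset ℤ) : q u T + r u T = T.card := by
  unfold q r
  exact Finset.card_filter_add_card_filter_not (fun x => x + u ∈ T)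

theorem q_neg (u : ℤ) (T : Finset ℤ) : q (-u) T = q u T := by
  unfold q
  refine Finset.card_bij (fun x _ => x + -u) ?_ ?_ ?_
  · intro x hx
    simp only [Finset.mem_filter] at hx ⊢
    exact ⟨hx.2, by simpa using hx.1⟩
  · intro x _ y _ h
    exact add_right_cancel h
  · intro x hx
    simp only [Finset.mem_filter] at hx
    exact ⟨x + u, by simp only [Finset.mem_filter]; exact ⟨hx.2, by simpa using hx.1⟩, by ring⟩

theorem r_neg (u : ℤ) (T : Finset ℤ) : r (-u) T = r u T := by
  have h1 := q_add_r u T
  have h2 := q_add_r (-u) T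
  have h3 := q_neg u T
  omega

theorem card_image_le_r (u : ℤ) (hu : 0 < u) (T : Finset ℤ) (f : ℤ → ℤ)
    (hf : ∀ x ∈ T, x + u ∈ T → f (x + u) = f x) : (T.image f).card ≤ r u T := by
  unfold r
  refine le_trans (Finset.card_le_card ?_) (Finset.card_image_le (f := f))
  intro y hy
  rw [Finset.mem_image] at hy
  obtain ⟨x, hx, rfl⟩ := hy
  have hne : (T.filter (fun z => f z = f x)).Nonempty := ⟨x, by simp [hx]⟩
  obtain ⟨z, hz, hmax⟩ := Finset.exists_max_image _ id hne
  rw [Finset.mem_filter] at hz
  rw [Finset.mem_image]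
  refine ⟨z, ?_, hz.2⟩
  rw [Finset.mem_filter]
  refine ⟨hz.1, fun hzu => ?_⟩
  have := hmax (z + u) (by rw [Finset.mem_filter]; exact ⟨hzu, (hf z hz.1 hzu).trans hz.2⟩)
  simp only [id] at this
  omega

/-- the embedding of `ℤ` in `Fin 1 → ℤ` -/
def emb : ℤ ↪ (Fin 1 → ℤ) := ⟨fun z _ => z, fun _ _ h => congrFun h 0⟩

theorem emb_eq (f : Fin 1 → ℤ) : emb (f 0) = f := by
  funext i
  have : i = 0 := Subsingleton.elim _ _
  subst this
  rfl

/-- the generating set -/
def U : Finset (Fin 1 → ℤ) := {emb 1, emb 6}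

theorem emb_add (a b : ℤ) : emb a + emb b = emb (a + b) := rfl

theorem emb_neg (a : ℤ) : - emb a = emb (-a) := rfl

theorem U_union : U ∪ U.image (fun u => -u) = {emb 1, emb 6, emb (-1), emb (-6)} := by
  decide

theorem boundary_eq (T : Finset ℤ) :
    ((T.map emb ×ˢ (U ∪ U.image (fun u => -u))).filter
      (fun p => p.1 + p.2 ∉ T.map emb)).card = 2 * (r 1 T + r 6 T) := by
  have key : ∀ u : ℤ, (∑ x ∈ T.map emb, if x + emb u ∉ T.map emb then 1 else 0) = r u T := by
    intro u
    rw [Finset.sum_map]
    unfold r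
    rw [Finset.card_filter]
    refine Finset.sum_congr rfl fun x _ => ?_
    rw [emb_add]
    simp only [Finset.mem_map' emb]
  rw [U_union, Finset.card_filter, Finset.sum_product_right]
  rw [Finset.sum_insert (by decide), Finset.sum_insert (by decide), Finset.sum_insert (by decide),
    Finset.sum_singleton]
  simp only [key]
  rw [r_neg, r_neg]
  ring

theorem image_eq_map (e : ℕ ≃ (Fin 1 → ℤ)) (n : ℕ) :
    (Finset.range n).image ⇑e = ((Finset.range n).image (fun k => e k 0)).map emb := by
  ext f
  simp only [Finset.mem_image, Finset.mem_map]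
  constructor
  · rintro ⟨k, hk, rfl⟩
    exact ⟨e k 0, ⟨k, hk, rfl⟩, emb_eq _⟩
  · rintro ⟨z, ⟨k, hk, rfl⟩, rfl⟩
    exact ⟨k, hk, (emb_eq _).symm⟩

/-- If some residue class mod `6` is missed, then `T` has at most `(r 1 T) * (r 6 T)` elements;
more precisely we find the grid. -/
theorem grid (T : Finset ℤ) (j : ℤ) (hj : ∀ x ∈ T, (x - j) % 6 ≠ 0) :
    ∃ R C : Finset ℤ, R.card ≤ r 1 T ∧ C.card ≤ r 6 T ∧
      (T.image (fun x => ((x - j) / 6, (x - j) % 6))) ⊆ R ×ˢ C := by
  refine ⟨T.image (fun x => (x - j) / 6), T.image (fun x => (x - j) % 6), ?_, ?_, ?_⟩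
  · refine card_image_le_r 1 (by norm_num) T _ ?_
    intro x hx hx1
    have h1 := hj x hx
    have h2 := hj (x + 1) hx1
    omega
  · refine card_image_le_r 6 (by norm_num) T _ ?_
    intro x _ _
    omega
  · intro p hp
    rw [Finset.mem_image] at hp
    obtain ⟨x, hx, rfl⟩ := hp
    rw [Finset.mem_product]
    exact ⟨Finset.mem_image_of_mem _ hx, Finset.mem_image_of_mem _ hx⟩

theorem inj_pair (j : ℤ) : Function.Injective (fun x : ℤ => ((x - j) / 6, (x - j) % 6)) := by
  intro x y h
  simp only [Prod.mk.injEq] at h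
  omega

theorem six_le (T : Finset ℤ) (h : ∀ j : ℤ, ∃ x ∈ T, (x - j) % 6 = 0) : 6 ≤ r 6 T := by
  have h1 := card_image_le_r 6 (by norm_num) T (fun x => x % 6) (by intro x _ _; simp)
  refine le_trans ?_ h1
  have : (Finset.image (fun k : ℕ => (k : ℤ)) (Finset.range 6)) ⊆ T.image (fun x => x % 6) := by
    intro y hy
    rw [Finset.mem_image] at hy
    obtain ⟨k, hk, rfl⟩ := hy
    rw [Finset.mem_range] at hk
    obtain ⟨x, hx, hxk⟩ := h k
    rw [Finset.mem_image]
    exact ⟨x, hx, by omega⟩
  calc 6 = (Finset.image (fun k : ℕ => (k : ℤ)) (Finset.range 6)).card := by decide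
    _ ≤ _ := Finset.card_le_card this

theorem one_le (T : Finset ℤ) (hT : T.Nonempty) : 1 ≤ r 1 T := by
  have h1 := card_image_le_r 1 (by norm_num) T (fun _ => 0) (by intro x _ _; rfl)
  refine le_trans ?_ h1
  rw [Nat.succ_le_iff, Finset.card_pos]
  exact hT.image _

/-- a `13`-element set with `r 1 + r 6 ≤ 7` has spread at most `12` -/
theorem spread13 (T : Finset ℤ) (hT : T.card = 13) (h : r 1 T + r 6 T ≤ 7) :
    ∀ x ∈ T, ∀ y ∈ T, y - x ≤ 12 := by
  by_cases hall : ∀ j : ℤ, ∃ x ∈ T, (x - j) % 6 = 0
  · have h6 := six_le T hall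
    have hne : T.Nonempty := Finset.card_pos.1 (by omega)
    have h1 := one_le T hne
    have hr1 : r 1 T = 1 := by omega
    -- unique element with x + 1 ∉ T
    unfold r at hr1
    rw [Finset.card_eq_one] at hr1
    obtain ⟨M, hM⟩ := hr1
    have huniq : ∀ x ∈ T, x ≠ M → x + 1 ∈ T := by
      intro x hx hxM
      by_contra hx1
      have : x ∈ T.filter (fun x => x + 1 ∉ T) := by
        rw [Finset.mem_filter]; exact ⟨hx, hx1⟩
      rw [hM, Finset.mem_singleton] at this
      exact hxM this
    have hMT : M ∈ T ∧ M + 1 ∉ T := by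
      have : M ∈ T.filter (fun x => x + 1 ∉ T) := by rw [hM]; simp
      rw [Finset.mem_filter] at this
      exact this
    obtain ⟨m, hm, hmin⟩ := Finset.exists_min_image T id hne
    simp only [id] at hmin
    -- from m upwards
    have hup : ∀ k : ℕ, m + k ≤ M → m + k ∈ T := by
      intro k
      induction k with
      | zero => intro _; simpa using hm
      | succ k ih =>
        intro hk
        push_cast at hk ⊢
        have h1 := ih (by omega)
        have := huniq (m + k) h1 (by omega)
        have e : m + ((k : ℤ) + 1) = m + k + 1 := by ring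
        rw [e]; exact this
    have hmax : ∀ x ∈ T, x ≤ M := by
      obtain ⟨N, hN, hNmax⟩ := Finset.exists_max_image T id hne
      simp only [id] at hNmax
      have : N = M := by
        by_contra hNM
        have := hNmax (N + 1) (huniq N hN hNM)
        omega
      subst this
      exact hNmax
    have hsub : Finset.Icc m M ⊆ T := by
      intro x hx
      rw [Finset.mem_Icc] at hx
      have := hup (x - m).toNat (by omega)
      have e : m + ((x - m).toNat : ℤ) = x := by omega
      rwa [e] at this
    have hc := Finset.card_le_card hsub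
    rw [Int.card_Icc, hT] at hc
    intro x hx y hy
    have h2 := hmin x hx
    have h3 := hmax y hy
    omega
  · exfalso
    push Not at hall
    obtain ⟨j, hj⟩ := hall
    obtain ⟨R, C, hR, hC, hsub⟩ := grid T j hj
    have hc := Finset.card_le_card hsub
    rw [Finset.card_image_of_injective _ (inj_pair j), Finset.card_product, hT] at hc
    have h7 : R.card + C.card ≤ 7 := by omega
    have : R.card ≤ 7 := by omega
    have : C.card ≤ 7 := by omega
    interval_cases R.card <;> interval_cases C.card <;> omega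

/-- a `9`-element set with `r 1 + r 6 ≤ 6` has spread at least `13` -/
theorem spread9 (T : Finset ℤ) (hT : T.card = 9) (h : r 1 T + r 6 T ≤ 6) :
    ∃ x ∈ T, ∃ y ∈ T, 13 ≤ y - x := by
  have hne : T.Nonempty := Finset.card_pos.1 (by omega)
  have h1 := one_le T hne
  by_cases hall : ∀ j : ℤ, ∃ x ∈ T, (x - j) % 6 = 0
  · have h6 := six_le T hall
    omega
  · push Not at hall
    obtain ⟨j, hj⟩ := hall
    obtain ⟨R, C, hR, hC, hsub⟩ := grid T j hj
    have hc := Finset.card_le_card hsub
    rw [Finset.card_image_of_injective _ (inj_pair j), Finset.card_product, hT] at hc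
    have h6 : R.card + C.card ≤ 6 := by omega
    have hR3 : R.card = 3 ∧ C.card = 3 := by
      have : R.card ≤ 6 := by omega
      have : C.card ≤ 6 := by omega
      interval_cases R.card <;> interval_cases C.card <;> omega
    have heq : T.image (fun x => ((x - j) / 6, (x - j) % 6)) = R ×ˢ C := by
      apply Finset.eq_of_subset_of_card_le hsub
      rw [Finset.card_image_of_injective _ (inj_pair j), Finset.card_product, hT, hR3.1, hR3.2]
    -- spread of a three-element set
    have spread3 : ∀ S : Finset ℤ, S.card = 3 → ∃ a ∈ S, ∃ b ∈ S, 2 ≤ b - a := by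
      intro S hS
      have hSne : S.Nonempty := Finset.card_pos.1 (by omega)
      obtain ⟨a, ha, hmin⟩ := Finset.exists_min_image S id hSne
      obtain ⟨b, hb, hmax⟩ := Finset.exists_max_image S id hSne
      refine ⟨a, ha, b, hb, ?_⟩
      by_contra hlt
      have hsub : S ⊆ Finset.Icc a (a + 1) := by
        intro x hx
        have h1 := hmin x hx
        have h2 := hmax x hx
        simp only [id] at h1 h2
        rw [Finset.mem_Icc]
        omega
      have := Finset.card_le_card hsub
      rw [Int.card_Icc, hS] at this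
      omega
    obtain ⟨a, ha, b, hb, hab⟩ := spread3 R hR3.1
    obtain ⟨c, hc', d, hd, hcd⟩ := spread3 C hR3.2
    have m1 : (a, c) ∈ T.image (fun x => ((x - j) / 6, (x - j) % 6)) := by
      rw [heq, Finset.mem_product]; exact ⟨ha, hc'⟩
    have m2 : (b, d) ∈ T.image (fun x => ((x - j) / 6, (x - j) % 6)) := by
      rw [heq, Finset.mem_product]; exact ⟨hb, hd⟩
    rw [Finset.mem_image] at m1 m2
    obtain ⟨x, hx, hxe⟩ := m1
    obtain ⟨y, hy, hye⟩ := m2
    simp only [Prod.mk.injEq] at hxe hye
    refine ⟨x, hx, y, hy, ?_⟩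
    omega

/-- The negation of the preceding statement: For every d ≥ 1 and finite generating set U of ℤ^d not containing 0, some enumeration of ℤ^d has every initial segment of size n with edge boundary in the Cayley graph at most that of any n-element set. -/
theorem not_nested :
    ¬ (∀ d : ℕ, 1 ≤ d → ∀ U : Finset (Fin d → ℤ), (0 : Fin d → ℤ) ∉ U →
      AddSubgroup.closure (U : Set (Fin d → ℤ)) = ⊤ →
      ∃ e : ℕ ≃ (Fin d → ℤ), ∀ n : ℕ, 1 ≤ n → ∀ S : Finset (Fin d → ℤ), S.card = n →
        ((((Finset.range n).image ⇑e) ×ˢ (U ∪ U.image (fun u => -u))).filter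
            (fun p => p.1 + p.2 ∉ (Finset.range n).image ⇑e)).card ≤
        ((S ×ˢ (U ∪ U.image (fun u => -u))).filter (fun p => p.1 + p.2 ∉ S)).card) := by
  intro H
  obtain ⟨e, he⟩ := H 1 le_rfl U (by decide) (by
    rw [eq_top_iff]
    intro f _
    have h1 : emb 1 ∈ AddSubgroup.closure (U : Set (Fin 1 → ℤ)) :=
      AddSubgroup.subset_closure (by simp [U])
    have h2 := AddSubgroup.zsmul_mem _ h1 (f 0)
    have h3 : (f 0) • emb 1 = f := by
      funext i
      have hi : i = 0 := Subsingleton.elim _ _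
      subst hi
      show f 0 • (1 : ℤ) = f 0
      simp
    rwa [h3] at h2)
  have hcard : ∀ n, ((Finset.range n).image (fun k => e k 0)).card = n := by
    intro n
    have h1 := congrArg Finset.card (image_eq_map e n)
    rw [Finset.card_image_of_injective _ e.injective, Finset.card_map, Finset.card_range] at h1
    exact h1.symm
  have h9 := he 9 (by norm_num) (Finset.map emb {0, 1, 2, 6, 7, 8, 12, 13, 14})
    (by rw [Finset.card_map]; decide)
  rw [image_eq_map, boundary_eq, boundary_eq] at h9
  have e9 : r 1 {0, 1, 2, 6, 7, 8, 12, 13, 14} + r 6 {0, 1, 2, 6, 7, 8, 12, 13, 14} = 6 := by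
    decide
  rw [e9] at h9
  have h13 := he 13 (by norm_num) (Finset.map emb {0, 1, 2, 3, 4, 5, 6, 7, 8, 9, 10, 11, 12})
    (by rw [Finset.card_map]; decide)
  rw [image_eq_map, boundary_eq, boundary_eq] at h13
  have e13 : r 1 {0, 1, 2, 3, 4, 5, 6, 7, 8, 9, 10, 11, 12} +
      r 6 {0, 1, 2, 3, 4, 5, 6, 7, 8, 9, 10, 11, 12} = 7 := by
    decide
  rw [e13] at h13
  obtain ⟨x, hx, y, hy, hxy⟩ := spread9 _ (hcard 9) (by omega)
  have hsub : (Finset.range 9).image (fun k => e k 0) ⊆ (Finset.range 13).image (fun k => e k 0) :=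
    Finset.image_subset_image (Finset.range_subset_range.2 (by norm_num))
  have := spread13 _ (hcard 13) (by omega) x (hsub hx) y (hsub hy)
  omega

end Pool.Agent.Y278.Nested
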