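import Mathlib

/-!
# A graph of chromatic number at least `a⁺` without a subdivision of `K_{a⁺}`

For every infinite cardinal `a`: the comparability graph of the tree of injective sequences
`α → a` (`α < a⁺` an ordinal), ordered by end-extension.
-/

open Cardinal Set

universe u

namespace Pool.Agent.Y278.TopClique

/-- `HasColours G κ`: the vertex set of `G` is a union of `κ` independent sets, i.e. `G` has a
proper colouring by a set of colours of cardinality `κ`. -/
def HasColours {V : Type u} (G : SimpleGraph V) (κ : Cardinal.{u}) : Prop :=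
  ∃ C : Type u, #C = κ ∧ Nonempty (G.Coloring C)

/-- The (possibly infinite) chromatic number of `G` : the least cardinal `κ` such that the
vertex set of `G` is a union of `κ` independent sets. -/
noncomputable def chi {V : Type u} (G : SimpleGraph V) : Cardinal.{u} :=
  sInf {κ | HasColours G κ}

/-- `G` contains (as a subgraph) a subdivision of the complete graph on `κ` vertices: there are
`κ` distinct branch vertices `b i` and, for every two of them, a finite path joining them, such
that no path has an inner vertex that is a branch vertex, and the paths belonging to two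
different unordered pairs have no inner vertex in common (equivalently, in view of the first
condition: every common vertex is a branch vertex).  (A path is chosen here for every *ordered*
pair; the two paths chosen for `(i, j)` and `(j, i)` may be related in any way, and one of them
can be thrown away.) -/
def HasSubdivisionComplete {V : Type u} (G : SimpleGraph V) (κ : Cardinal.{u}) : Prop :=
  ∃ (K : Type u) (_ : #K = κ) (b : K → V) (P : ∀ i j : K, G.Walk (b i) (b j)),
    Function.Injective b ∧
    (∀ i j, i ≠ j → (P i j).IsPath) ∧
    (∀ i j, i ≠ j → ∀ k, b k ∈ (P i j).support → k = i ∨ k = j) ∧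
    (∀ i j i' j', i ≠ j → i' ≠ j' → s(i, j) ≠ s(i', j') →
      ∀ v, v ∈ (P i j).support → v ∈ (P i' j').support → ∃ k, v = b k)

section Tree

variable (W : Type u) [LinearOrder W] [WellFoundedLT W] (A : Type u) (a₀ : A)

/-- Injective sequences with values in `A`, of length (the order type of the elements below)
`len : W`; the values at the places `≥ len` are the dummy value `a₀`. -/
structure Node where
  len : W
  val : W → A
  inj : InjOn val (Iio len)
  out : ∀ x, len ≤ x → val x = a₀

variable {W A a₀}

omit [WellFoundedLT W] in
theorem Node.ext' {s t : Node W A a₀} (h : s.len = t.len) (h' : ∀ x < s.len, s.val x = t.val x) :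
    s = t := by
  obtain ⟨l, v, i, o⟩ := s
  obtain ⟨l', v', i', o'⟩ := t
  simp only at h h'
  subst h
  have : v = v' := by
    funext x
    by_cases hx : x < l
    · exact h' x hx
    · rw [o x (not_lt.1 hx), o' x (not_lt.1 hx)]
  subst this
  rfl

/-- `s` is an initial segment of `t`. -/
def Below (s t : Node W A a₀) : Prop := s.len ≤ t.len ∧ ∀ x < s.len, s.val x = t.val x

/-- The comparability graph. -/
def treeGraph (W : Type u) [LinearOrder W] [WellFoundedLT W] (A : Type u) (a₀ : A) :
    SimpleGraph (Node W A a₀) where
  Adj s t := s ≠ t ∧ (Below s t ∨ Below t s)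
  symm := ⟨fun _ _ h => ⟨h.1.symm, h.2.symm⟩⟩
  loopless := ⟨fun _ h => h.1 rfl⟩

/-- If the comparability graph had a proper colouring with values in `A`, then `W` would inject
into `A`. -/
theorem injection_of_coloring (c : (treeGraph W A a₀).Coloring A) :
    ∃ s : W → A, Function.Injective s := by
  classical
  -- the recursively defined sequence
  let F : ∀ w : W, (∀ v, v < w → A) → A := fun w s =>
    if h : InjOn (fun x => if hx : x < w then s x hx else a₀) (Iio w) then
      c ⟨w, fun x => if hx : x < w then s x hx else a₀, h, fun x hx => by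
        simp [not_lt.2 hx]⟩
    else a₀
  let s : W → A := (wellFounded_lt (α := W)).fix F
  have hs : ∀ w, s w = F w (fun v _ => s v) := fun w => (wellFounded_lt (α := W)).fix_eq F w
  have key : ∀ w : W, ∀ h : InjOn s (Iio w),
      s w = c ⟨w, fun x => if x < w then s x else a₀,
        fun x hx y hy hxy => by
          have hx' : x < w := hx
          have hy' : y < w := hy
          simp only [hx', hy', if_true] at hxy
          exact h hx hy hxy,
        fun x hx => by simp [not_lt.2 hx]⟩ := by
    intro w h
    have h2 : InjOn (fun x => if hx : x < w then s x else a₀) (Iio w) := by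
      intro x hx y hy hxy
      have hx' : x < w := hx
      have hy' : y < w := hy
      simp only [hx', hy', dite_true] at hxy
      exact h hx hy hxy
    rw [hs w]
    simp only [F]
    rw [dif_pos h2]
    congr 1
  have hinj : ∀ w : W, InjOn s (Iio w) := by
    intro w
    induction w using (wellFounded_lt (α := W)).induction with
    | _ w ih =>
      have aux : ∀ x y, x < y → y < w → s x ≠ s y := by
        intro x y hxy hy heq
        rw [key x (ih x (hxy.trans hy)), key y (ih y hy)] at heq
        refine c.valid ?_ heq
        refine ⟨?_, Or.inl ⟨hxy.le, ?_⟩⟩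
        · intro h
          have := congrArg Node.len h
          exact hxy.ne this
        · intro z hz
          have hz1 : z < x := hz
          simp [hz1, hz1.trans hxy]
      intro x hx y hy hxy
      rcases lt_trichotomy x y with h | h | h
      · exact absurd hxy (aux x y h hy)
      · exact h
      · exact absurd hxy.symm (aux y x h hx)
  refine ⟨s, ?_⟩
  have aux : ∀ x y, x < y → s x ≠ s y := by
    intro x y hxy heq
    rw [key x (hinj x), key y (hinj y)] at heq
    refine c.valid ?_ heq
    refine ⟨?_, Or.inl ⟨hxy.le, ?_⟩⟩
    · intro h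
      have := congrArg Node.len h
      exact hxy.ne this
    · intro z hz
      have hz1 : z < x := hz
      simp [hz1, hz1.trans hxy]
  intro x y hxy
  rcases lt_trichotomy x y with h | h | h
  · exact absurd hxy (aux x y h)
  · exact h
  · exact absurd hxy.symm (aux y x h)

omit [WellFoundedLT W] in
/-- A chain of nodes whose lengths are cofinal gives an injection `W → A`. -/
theorem injection_of_chain {K : Type u} (f : K → Node W A a₀)
    (hchain : ∀ i j, Below (f i) (f j) ∨ Below (f j) (f i))
    (hcof : ∀ x : W, ∃ i, x < (f i).len) : ∃ s : W → A, Function.Injective s := by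
  choose k hk using hcof
  refine ⟨fun x => (f (k x)).val x, ?_⟩
  have agree : ∀ i j x, x < (f i).len → x < (f j).len → (f i).val x = (f j).val x := by
    intro i j x hi hj
    rcases hchain i j with h | h
    · exact h.2 x hi
    · exact (h.2 x hj).symm
  have aux : ∀ x y, x < y → (f (k x)).val x ≠ (f (k y)).val y := by
    intro x y hxy heq
    rw [agree (k x) (k y) x (hk x) (hxy.trans (hk y))] at heq
    have := (f (k y)).inj (show x ∈ Iio (f (k y)).len from hxy.trans (hk y))
      (show y ∈ Iio (f (k y)).len from hk y) heq
    exact hxy.ne this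
  intro x y hxy
  rcases lt_trichotomy x y with h | h | h
  · exact absurd hxy (aux x y h)
  · exact h
  · exact absurd hxy.symm (aux y x h)

/-- A walk leaving the cone above `t|_{δ+1}` meets a restriction `t|_γ`, `γ ≤ δ`. -/
theorem exists_mem_support (t : Node W A a₀) (δ : W) {u v : Node W A a₀}
    (p : (treeGraph W A a₀).Walk u v)
    (hu : δ < u.len ∧ ∀ x ≤ δ, u.val x = t.val x)
    (hv : ¬ (δ < v.len ∧ ∀ x ≤ δ, v.val x = t.val x)) :
    ∃ r ∈ p.support, r.len ≤ δ ∧ ∀ x < r.len, r.val x = t.val x := by
  induction p with
  | nil => exact absurd hu hv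
  | @cons u w v h p ih =>
    by_cases hw : δ < w.len ∧ ∀ x ≤ δ, w.val x = t.val x
    · obtain ⟨r, hr, hr'⟩ := ih hw hv
      exact ⟨r, by simp [hr], hr'⟩
    · refine ⟨w, by simp, ?_⟩
      rcases h.2 with h1 | h1
      · exfalso
        apply hw
        refine ⟨hu.1.trans_le h1.1, fun x hx => ?_⟩
        rw [← h1.2 x (hx.trans_lt hu.1)]
        exact hu.2 x hx
      · have hle : w.len ≤ δ := by
          by_contra hlt
          rw [not_le] at hlt
          apply hw
          refine ⟨hlt, fun x hx => ?_⟩
          rw [h1.2 x (hx.trans_lt hlt)]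
          exact hu.2 x hx
        refine ⟨hle, fun x hx => ?_⟩
        rw [h1.2 x hx]
        exact hu.2 x (hx.le.trans hle)

end Tree

/-- **Main theorem.** For every infinite cardinal `a` there is a graph with chromatic number at
least `a⁺` containing no subdivision of the complete graph on `a⁺` vertices. -/
theorem main (a : Cardinal.{u}) (ha : ℵ₀ ≤ a) :
    ∃ (V : Type u) (G : SimpleGraph V),
      HasColours G (Order.succ a) ∧ (∀ κ, κ ≤ a → ¬ HasColours G κ) ∧
        ¬ HasSubdivisionComplete G (Order.succ a) := by
  classical
  -- the index set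
  let W : Type u := (Order.succ a).ord.ToType
  have hWcard : #W = Order.succ a := by simp [W]
  have hIio : ∀ w : W, #(Iio w) ≤ a := by
    intro w
    have := Cardinal.mk_Iio_toType_ord_lt (c := Order.succ a) w
    exact Order.lt_succ_iff.1 this
  have hIic : ∀ w : W, #(Iic w) ≤ a := by
    intro w
    have h1 : (Iic w : Set W) = insert w (Iio w) := by
      ext x; simp [le_iff_eq_or_lt]
    rw [h1]
    refine (Cardinal.mk_insert_le).trans ?_
    calc #(Iio w) + 1 ≤ a + 1 := by gcongr; exact hIio w
      _ = a := Cardinal.add_one_eq ha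
  induction a using Cardinal.inductionOn with
  | _ A =>
  have hne : Nonempty A := by
    rw [← Cardinal.mk_ne_zero_iff]
    intro h
    rw [h] at ha
    exact absurd ha (not_le.2 Cardinal.aleph0_pos)
  obtain ⟨a₀⟩ := hne
  have noinj : ¬ ∃ s : W → A, Function.Injective s := by
    rintro ⟨s, hs⟩
    have := Cardinal.mk_le_of_injective hs
    rw [hWcard] at this
    exact absurd this (not_le.2 (Order.lt_succ _))
  refine ⟨Node W A a₀, treeGraph W A a₀, ?_, ?_, ?_⟩
  · -- colour by the length
    refine ⟨W, hWcard, ⟨SimpleGraph.Coloring.mk Node.len ?_⟩⟩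
    rintro s t ⟨hne, h⟩ heq
    rcases h with h | h
    · exact hne (Node.ext' heq h.2)
    · exact hne (Node.ext' heq.symm h.2).symm
  · rintro κ hκ ⟨C, hC, ⟨c⟩⟩
    have : #C ≤ #A := by rw [hC]; exact hκ
    obtain ⟨e⟩ := Cardinal.le_def C A |>.1 this
    apply noinj
    exact injection_of_coloring (a₀ := a₀)
      (SimpleGraph.Coloring.mk (fun v => e (c v)) (fun {v w} h heq => c.valid h (e.injective heq)))
  · rintro ⟨K, hK, b, P, hb, hP, hbr, hdis⟩
    -- the branch vertices do not form a chain
    have hnc : ∃ i j, ¬ (Below (b i) (b j) ∨ Below (b j) (b i)) := by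
      by_contra hcon
      push Not at hcon
      have hcon' : ∀ i j, Below (b i) (b j) ∨ Below (b j) (b i) := hcon
      apply noinj
      refine injection_of_chain b hcon' ?_
      by_contra hbd
      push Not at hbd
      obtain ⟨x, hx⟩ := hbd
      -- all lengths are ≤ x; lengths are injective on K
      have hinj : Function.Injective (fun i : K => (⟨(b i).len, hx i⟩ : Iic x)) := by
        intro i j hij
        have hlen : (b i).len = (b j).len := congrArg Subtype.val hij
        apply hb
        rcases hcon' i j with h | h
        · exact Node.ext' hlen h.2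
        · exact (Node.ext' hlen.symm h.2).symm
      have := Cardinal.mk_le_of_injective hinj
      rw [hK] at this
      exact absurd (this.trans (hIic x)) (not_le.2 (Order.lt_succ _))
    obtain ⟨i, j, hij⟩ := hnc
    rw [not_or] at hij
    have hij_ne : i ≠ j := by
      rintro rfl
      exact hij.1 ⟨le_rfl, fun _ _ => rfl⟩
    -- the first place where they differ
    have hdiff : ∃ δ, δ < (b i).len ∧ δ < (b j).len ∧ (b i).val δ ≠ (b j).val δ := by
      by_contra hcon
      push Not at hcon
      rcases le_total (b i).len (b j).len with h | h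
      · exact hij.1 ⟨h, fun x hx => hcon x hx (hx.trans_le h)⟩
      · exact hij.2 ⟨h, fun x hx => (hcon x (hx.trans_le h) hx).symm⟩
    obtain ⟨δ, hδi, hδj, hδ⟩ := hdiff
    set t := b i with ht
    have hu : δ < t.len ∧ ∀ x ≤ δ, t.val x = t.val x := ⟨hδi, fun _ _ => rfl⟩
    have hv : ¬ (δ < (b j).len ∧ ∀ x ≤ δ, (b j).val x = t.val x) := by
      rintro ⟨-, h⟩
      exact hδ (h δ le_rfl).symm
    have hex : ∀ k : K, ∃ r, (r ∈ (P i k).support ∨ r ∈ (P k j).support) ∧ r.len ≤ δ ∧
        ∀ x < r.len, r.val x = t.val x := by
      intro k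
      obtain ⟨r, hr, hr'⟩ := exists_mem_support t δ ((P i k).append (P k j)) hu hv
      rw [SimpleGraph.Walk.mem_support_append_iff] at hr
      exact ⟨r, hr, hr'⟩
    choose r hr hrδ hrt using hex
    -- `r k` is not the branch vertex `b i` nor `b j`
    have hri : ∀ k, r k ≠ b i := by
      intro k h
      have := hrδ k
      rw [h] at this
      exact absurd this (not_le.2 hδi)
    have hrj : ∀ k, r k ≠ b j := by
      intro k h
      have := hrδ k
      rw [h] at this
      exact absurd this (not_le.2 hδj)
    have hinj : InjOn r ({i, j}ᶜ : Set K) := by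
      intro k hk l hl hkl
      by_contra hne
      simp only [mem_compl_iff, mem_insert_iff, mem_singleton_iff, not_or] at hk hl
      have hbranch : ∀ p q p' q' : K, p ≠ q → p' ≠ q' → s(p, q) ≠ s(p', q') →
          r k ∈ (P p q).support → r l ∈ (P p' q').support →
          (∀ z, (z = p ∨ z = q) → (z = p' ∨ z = q') → z = i ∨ z = j) → False := by
        intro p q p' q' hpq hpq' hs h1 h2 h3
        rw [← hkl] at h2
        obtain ⟨z, hz⟩ := hdis p q p' q' hpq hpq' hs _ h1 h2
        have e1 := hbr p q hpq z (hz ▸ h1)
        have e2 := hbr p' q' hpq' z (hz ▸ h2)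
        rcases h3 z e1 e2 with rfl | rfl
        · exact hri k hz
        · exact hrj k hz
      rcases hr k with h1 | h1 <;> rcases hr l with h2 | h2
      · refine hbranch i k i l (Ne.symm hk.1) (Ne.symm hl.1) ?_ h1 h2 ?_
        · simp only [ne_eq, Sym2.eq_iff]; tauto
        · rintro z (rfl | rfl) (h | h) <;> tauto
      · refine hbranch i k l j (Ne.symm hk.1) hl.2 ?_ h1 h2 ?_
        · simp only [ne_eq, Sym2.eq_iff]; tauto
        · rintro z (rfl | rfl) (h | h) <;> tauto
      · refine hbranch k j i l hk.2 (Ne.symm hl.1) ?_ h1 h2 ?_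
        · simp only [ne_eq, Sym2.eq_iff]; tauto
        · rintro z (rfl | rfl) (h | h) <;> tauto
      · refine hbranch k j l j hk.2 hl.2 ?_ h1 h2 ?_
        · simp only [ne_eq, Sym2.eq_iff]; tauto
        · rintro z (rfl | rfl) (h | h) <;> tauto
    have hlen : Function.Injective
        (fun k : ({i, j}ᶜ : Set K) => (⟨(r k.1).len, hrδ k.1⟩ : Iic δ)) := by
      intro k l hkl
      have hl : (r k.1).len = (r l.1).len := congrArg Subtype.val hkl
      apply Subtype.ext
      apply hinj k.2 l.2
      refine Node.ext' hl fun x hx => ?_
      rw [hrt k.1 x hx, hrt l.1 x (hl ▸ hx)]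
    have hcard : #(({i, j}ᶜ : Set K)) ≤ #A := (Cardinal.mk_le_of_injective hlen).trans (hIic δ)
    have hKle : #K ≤ #A := by
      have h1 : #(({i, j} : Set K)) ≤ #A := by
        refine le_trans ?_ ha
        exact (Cardinal.lt_aleph0_iff_finite.2 (Set.toFinite ({i, j} : Set K))).le
      rw [← Cardinal.mk_sum_compl ({i, j} : Set K)]
      calc #(({i, j} : Set K)) + #(({i, j}ᶜ : Set K)) ≤ #A + #A := add_le_add h1 hcard
        _ = #A := Cardinal.add_eq_self ha
    rw [hK] at hKle
    exact absurd hKle (not_le.2 (Order.lt_succ _))

theorem main' (a : Cardinal.{u}) (ha : ℵ₀ ≤ a) :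
    ∃ (V : Type u) (G : SimpleGraph V),
      chi G = Order.succ a ∧ ¬ HasSubdivisionComplete G (Order.succ a) := by
  obtain ⟨V, G, h1, h2, h3⟩ := main a ha
  refine ⟨V, G, le_antisymm (csInf_le' h1) ?_, h3⟩
  refine le_csInf ⟨_, h1⟩ ?_
  intro κ hκ
  rw [Order.succ_le_iff]
  by_contra h
  exact h2 κ (not_lt.1 h) hκ

end Pool.Agent.Y278.TopClique
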