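import Pool.Agent.Y278.WMPMain

set_option autoImplicit false

open scoped ENNReal
open Pool.Agent.Y278.WMP

namespace Pool.Agent.Y278.WMPFinal

/-- For a Banach space `E` over `𝕜 = ℝ` or `ℂ` the following are equivalent: `E` is finite
dimensional; `(E, F)` has the weak maximizing property for every Banach space `F`; the single pair
`(E, ℓ_∞)` has the weak maximizing property. -/
theorem finiteDimensional_tfae.{u, v} {𝕜 : Type v} [RCLike 𝕜] (E : Type u) [NormedAddCommGroup E]
    [NormedSpace 𝕜 E] [CompleteSpace E] :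
    List.TFAE [
      FiniteDimensional 𝕜 E,
      ∀ (F : Type v) [NormedAddCommGroup F] [NormedSpace 𝕜 F] [CompleteSpace F], HasWMP 𝕜 E F,
      HasWMP 𝕜 E (lp (fun _ : ℕ => 𝕜) ∞)] := by
  tfae_have 1 → 2 := by
    intro h F _ _ _
    exact of_finiteDimensional
  tfae_have 2 → 3 := by
    intro h
    exact h _
  tfae_have 3 → 1 := fun h => main h
  tfae_finish

end Pool.Agent.Y278.WMPFinal
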