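import Mathlib
import Pool.Agent.Y278.JN4
import Pool.Agent.Y278.WMPDefs

set_option autoImplicit false

open Filter Topology Finset
open scoped ENNReal

namespace Pool.Agent.Y278.WMP

variable {𝕜 : Type*} [RCLike 𝕜]
variable {E : Type*} [NormedAddCommGroup E] [NormedSpace 𝕜 E]

/-- Josefson–Nissenzweig over `ℝ` or `ℂ`. -/
theorem jn_rclike (hE : ¬ FiniteDimensional 𝕜 E) :
    ∃ v : ℕ → (E →L[𝕜] 𝕜), (∀ n, ‖v n‖ = 1) ∧ ∀ x, Tendsto (fun n => v n x) atTop (𝓝 0) := by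
  let _ : NormedSpace ℝ E := NormedSpace.restrictScalars ℝ 𝕜 E
  have _ : IsScalarTower ℝ 𝕜 E := RestrictScalars.isScalarTower ℝ 𝕜 E
  have hR : ¬ FiniteDimensional ℝ E := by
    intro h
    exact hE (Module.Finite.of_restrictScalars_finite ℝ 𝕜 E)
  obtain ⟨v, hv1, hv2⟩ := josefson_nissenzweig hR
  refine ⟨fun n => StrongDual.extendRCLike (v n), fun n => ?_, fun x => ?_⟩
  · rw [StrongDual.norm_extendRCLike, hv1]
  · have h1 := hv2 x
    have h2 := hv2 ((RCLike.I : 𝕜) • x)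
    simp only [StrongDual.extendRCLike_apply]
    have h3 : Tendsto (fun n => ((v n x : ℝ) : 𝕜)) atTop (𝓝 ((0 : ℝ) : 𝕜)) :=
      (RCLike.continuous_ofReal.tendsto 0).comp h1
    have h4 : Tendsto (fun n => ((v n ((RCLike.I : 𝕜) • x) : ℝ) : 𝕜)) atTop (𝓝 ((0 : ℝ) : 𝕜)) :=
      (RCLike.continuous_ofReal.tendsto 0).comp h2
    have h5 := h3.sub (h4.const_mul (RCLike.I : 𝕜))
    simpa using h5

/-- ultrafilter limits of bounded sequences of functionals -/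
theorem ultralimit (U : Ultrafilter ℕ) (g : ℕ → (E →L[𝕜] 𝕜)) (R : ℝ) (hg : ∀ n, ‖g n‖ ≤ R) :
    ∃ G : E →L[𝕜] 𝕜, ∀ w, Tendsto (fun n => g n w) U (𝓝 (G w)) := by
  have hK := WeakDual.isCompact_closedBall (𝕜 := 𝕜) (E := E) 0 R
  have h1 : ∀ n, StrongDual.toWeakDual (g n) ∈ (WeakDual.toStrongDual ⁻¹' Metric.closedBall (0 : StrongDual 𝕜 E) R) := by
    intro n
    simpa using hg n
  have h2 := (isCompact_iff_ultrafilter_le_nhds.1 hK) (U.map (fun n => StrongDual.toWeakDual (g n))) (by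
    rw [le_principal_iff]
    exact Filter.mem_map.2 (Filter.Eventually.of_forall h1))
  obtain ⟨G, -, hG⟩ := h2
  refine ⟨WeakDual.toStrongDual G, fun w => ?_⟩
  have h3 : Tendsto (fun n => StrongDual.toWeakDual (g n)) U (𝓝 G) := hG
  have h4 := ((WeakDual.eval_continuous w).tendsto G).comp h3
  exact h4

/-- unit vectors on which a functional is nearly as large as its norm -/
theorem exists_unit (f : E →L[𝕜] 𝕜) (r : ℝ) (hr0 : 0 ≤ r) (hr : r < ‖f‖) :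
    ∃ x : E, ‖x‖ = 1 ∧ r < ‖f x‖ := by
  obtain ⟨x, hx1, hx2⟩ := f.exists_lt_apply_of_lt_opNorm hr
  have hx0 : x ≠ 0 := by
    rintro rfl
    simp at hx2
    linarith
  have hpos : 0 < ‖x‖ := norm_pos_iff.mpr hx0
  refine ⟨((‖x‖⁻¹ : ℝ) : 𝕜) • x, ?_, ?_⟩
  · rw [norm_smul, RCLike.norm_ofReal, abs_of_pos (inv_pos.2 hpos), inv_mul_cancel₀ hpos.ne']
  · rw [map_smul, norm_smul, RCLike.norm_ofReal, abs_of_pos (inv_pos.2 hpos)]
    have h1 : 1 ≤ ‖x‖⁻¹ := (one_le_inv₀ hpos).2 hx1.le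
    calc r < ‖f x‖ := hx2
      _ = 1 * ‖f x‖ := (one_mul _).symm
      _ ≤ ‖x‖⁻¹ * ‖f x‖ := mul_le_mul_of_nonneg_right h1 (norm_nonneg _)

/-- weights increasing to one -/
noncomputable def wt (n : ℕ) : ℝ := 1 - 1 / ((n : ℝ) + 2)

theorem wt_nonneg (n : ℕ) : 0 ≤ wt n := by
  unfold wt
  have : 1 / ((n : ℝ) + 2) ≤ 1 := by
    rw [div_le_one (by positivity)]
    have : (0 : ℝ) ≤ n := Nat.cast_nonneg n
    linarith
  linarith

theorem wt_lt_one (n : ℕ) : wt n < 1 := by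
  unfold wt
  have : 0 < 1 / ((n : ℝ) + 2) := by positivity
  linarith

theorem wt_mono {n m : ℕ} (h : n ≤ m) : wt n ≤ wt m := by
  unfold wt
  have h1 : (n : ℝ) ≤ m := by exact_mod_cast h
  have : 1 / ((m : ℝ) + 2) ≤ 1 / ((n : ℝ) + 2) :=
    one_div_le_one_div_of_le (by positivity) (by linarith)
  linarith

theorem wt_tendsto : Tendsto wt atTop (𝓝 1) := by
  have h : Tendsto (fun n : ℕ => 1 / ((n : ℝ) + 2)) atTop (𝓝 0) := by
    apply Tendsto.const_div_atTop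
    exact tendsto_atTop_add_const_right _ _ tendsto_natCast_atTop_atTop
  have h2 := (tendsto_const_nhds (x := (1 : ℝ)) (f := atTop (α := ℕ))).sub h
  rw [sub_zero] at h2
  exact h2

theorem wt_bound (y : ℕ → (E →L[𝕜] 𝕜)) (hy : ∀ n, ‖y n‖ ≤ 1) (z : E) (n : ℕ) :
    ‖((wt n : ℝ) : 𝕜) * y n z‖ ≤ ‖z‖ := by
  rw [norm_mul, RCLike.norm_ofReal, abs_of_nonneg (wt_nonneg n)]
  calc wt n * ‖y n z‖ ≤ 1 * (1 * ‖z‖) := by
        apply mul_le_mul (wt_lt_one n).le _ (norm_nonneg _) zero_le_one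
        exact ((y n).le_opNorm z).trans (mul_le_mul_of_nonneg_right (hy n) (norm_nonneg _))
    _ = ‖z‖ := by ring

/-- the operator `z ↦ (wt n * y n z)` into `ℓ_∞` -/
noncomputable def opT (y : ℕ → (E →L[𝕜] 𝕜)) (hy : ∀ n, ‖y n‖ ≤ 1) :
    E →L[𝕜] lp (fun _ : ℕ => 𝕜) ∞ :=
  LinearMap.mkContinuous
    { toFun := fun z => ⟨fun n => ((wt n : ℝ) : 𝕜) * y n z, by
        apply memℓp_infty
        refine ⟨‖z‖, ?_⟩
        rintro _ ⟨n, rfl⟩
        exact wt_bound y hy z n⟩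
      map_add' := fun a b => by
        ext n
        show ((wt n : ℝ) : 𝕜) * y n (a + b) = ((wt n : ℝ) : 𝕜) * y n a + ((wt n : ℝ) : 𝕜) * y n b
        rw [map_add, mul_add]
      map_smul' := fun c a => by
        ext n
        show ((wt n : ℝ) : 𝕜) * y n (c • a) = c • (((wt n : ℝ) : 𝕜) * y n a)
        rw [map_smul, smul_eq_mul, smul_eq_mul]
        ring } 1 (fun z => by
      rw [one_mul]
      apply lp.norm_le_of_forall_le (norm_nonneg _)
      intro n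
      exact wt_bound y hy z n)

theorem opT_apply (y : ℕ → (E →L[𝕜] 𝕜)) (hy : ∀ n, ‖y n‖ ≤ 1) (z : E) (n : ℕ) :
    (opT y hy z : ∀ _ : ℕ, 𝕜) n = ((wt n : ℝ) : 𝕜) * y n z := rfl

theorem opT_norm_le (y : ℕ → (E →L[𝕜] 𝕜)) (hy : ∀ n, ‖y n‖ ≤ 1) : ‖opT y hy‖ ≤ 1 :=
  LinearMap.mkContinuous_norm_le _ zero_le_one _

theorem norm_ofReal_wt (n : ℕ) (c : 𝕜) : ‖((wt n : ℝ) : 𝕜) * c‖ = wt n * ‖c‖ := by
  rw [norm_mul, RCLike.norm_ofReal, abs_of_nonneg (wt_nonneg n)]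

/-- Claim A. -/
theorem claimA (hW : HasWMP 𝕜 E (lp (fun _ : ℕ => 𝕜) ∞)) (y : ℕ → (E →L[𝕜] 𝕜))
    (hy : ∀ n, ‖y n‖ ≤ 1) (x : ℕ → E) (hx : ∀ n, ‖x n‖ = 1)
    (hyx : Tendsto (fun n => ‖y n (x n)‖) atTop (𝓝 1)) (y₀ : E →L[𝕜] 𝕜)
    (hlim : ∀ z, Tendsto (fun n => y n z) atTop (𝓝 (y₀ z)))
    (hna : ¬ ∃ z : E, ‖z‖ = 1 ∧ ‖y₀ z‖ = 1) : WeaklyNull 𝕜 x := by
  by_contra hcon
  set T := opT y hy with hT
  have hup : ∀ n, ‖T (x n)‖ ≤ ‖T‖ := fun n => by
    have := T.le_opNorm (x n)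
    rwa [hx n, mul_one] at this
  have hlow : ∀ n, wt n * ‖y n (x n)‖ ≤ ‖T (x n)‖ := fun n => by
    have h1 := lp.norm_apply_le_norm ENNReal.top_ne_zero (T (x n)) n
    rw [hT, opT_apply, norm_ofReal_wt] at h1
    exact h1
  have hlim1 : Tendsto (fun n => wt n * ‖y n (x n)‖) atTop (𝓝 1) := by
    have := wt_tendsto.mul hyx
    rwa [one_mul] at this
  have hT1 : ‖T‖ = 1 := by
    apply le_antisymm (opT_norm_le y hy)
    exact le_of_tendsto' hlim1 fun n => (hlow n).trans (hup n)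
  have hmax : IsMaximizing T x := by
    refine ⟨hx, ?_⟩
    rw [hT1]
    refine tendsto_of_tendsto_of_tendsto_of_le_of_le hlim1 tendsto_const_nhds hlow fun n => ?_
    rw [← hT1]
    exact hup n
  obtain ⟨z, hz, hz2⟩ := hW T ⟨x, hmax, hcon⟩
  rw [hT1] at hz2
  have hyz : ∀ n, ‖y n z‖ ≤ 1 := fun n => by
    have := (y n).le_opNorm z
    rw [hz, mul_one] at this
    exact this.trans (hy n)
  have hl1 : ‖y₀ z‖ ≤ 1 := le_of_tendsto' ((hlim z).norm) hyz
  have hl : ‖y₀ z‖ < 1 := lt_of_le_of_ne hl1 fun h => hna ⟨z, hz, h⟩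
  obtain ⟨m, hm1, hm2⟩ := exists_between hl
  obtain ⟨N, hN⟩ := (((hlim z).norm).eventually_lt_const hm1).exists_forall_of_atTop
  have hbd : ‖T z‖ ≤ max m (wt N) := by
    apply lp.norm_le_of_forall_le (le_max_of_le_right (wt_nonneg N))
    intro n
    rw [hT, opT_apply, norm_ofReal_wt]
    rcases le_total N n with h | h
    · refine le_max_of_le_left ?_
      calc wt n * ‖y n z‖ ≤ 1 * ‖y n z‖ := mul_le_mul_of_nonneg_right (wt_lt_one n).le (norm_nonneg _)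
        _ ≤ m := by rw [one_mul]; exact (hN n h).le
    · refine le_max_of_le_right ?_
      calc wt n * ‖y n z‖ ≤ wt n * 1 := mul_le_mul_of_nonneg_left (hyz n) (wt_nonneg n)
        _ ≤ wt N := by rw [mul_one]; exact wt_mono h
  rw [hz2] at hbd
  exact absurd hbd (not_le.2 (max_lt hm2 (wt_lt_one N)))

/-- Claim B. -/
theorem claimB (hW : HasWMP 𝕜 E (lp (fun _ : ℕ => 𝕜) ∞)) (v : ℕ → (E →L[𝕜] 𝕜))
    (hv : ∀ n, ‖v n‖ = 1) (hv0 : ∀ z, Tendsto (fun n => v n z) atTop (𝓝 0))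
    (u : E →L[𝕜] 𝕜) (ε : ℝ) (hε : 0 < ε) :
    ∀ᶠ n in atTop, ‖u + v n‖ ≤ max ‖u‖ 1 + ε := by
  by_contra hcon
  rw [not_eventually] at hcon
  obtain ⟨φ, hφ, hφ2⟩ := extraction_of_frequently_atTop hcon
  have hbdd : ∀ n, ‖u + v (φ n)‖ ∈ Set.Icc (0 : ℝ) (‖u‖ + 1) := fun n =>
    ⟨norm_nonneg _, (norm_add_le _ _).trans (by rw [hv])⟩
  obtain ⟨N, -, ψ, hψ, hN⟩ := isCompact_Icc.tendsto_subseq hbdd
  have hge : ∀ n, max ‖u‖ 1 + ε ≤ ‖u + v (φ (ψ n))‖ := fun n => (not_le.1 (hφ2 (ψ n))).le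
  have hNge : max ‖u‖ 1 + ε ≤ N := ge_of_tendsto' hN hge
  have hN0 : 0 < N := by
    have := le_max_right ‖u‖ 1
    linarith
  set M : ℕ → ℝ := fun n => ‖u + v (φ (ψ n))‖ with hM
  have hMpos : ∀ n, 0 < M n := fun n => by
    have h1 := hge n
    have := le_max_right ‖u‖ 1
    have : 0 < ‖u + v (φ (ψ n))‖ := by linarith
    exact this
  have hMlim : Tendsto M atTop (𝓝 N) := hN
  let y : ℕ → (E →L[𝕜] 𝕜) := fun n => (((M n)⁻¹ : ℝ) : 𝕜) • (u + v (φ (ψ n)))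
  have hyn : ∀ n, ‖y n‖ = 1 := fun n => by
    show ‖(((M n)⁻¹ : ℝ) : 𝕜) • (u + v (φ (ψ n)))‖ = 1
    rw [norm_smul, RCLike.norm_ofReal, abs_of_pos (inv_pos.2 (hMpos n))]
    exact inv_mul_cancel₀ (hMpos n).ne'
  have hex : ∀ n : ℕ, ∃ x : E, ‖x‖ = 1 ∧ wt n < ‖y n x‖ := fun n =>
    exists_unit (y n) (wt n) (wt_nonneg n) (by rw [hyn]; exact wt_lt_one n)
  choose x hx hxy using hex
  have hyx : Tendsto (fun n => ‖y n (x n)‖) atTop (𝓝 1) := by
    refine tendsto_of_tendsto_of_tendsto_of_le_of_le wt_tendsto tendsto_const_nhds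
      (fun n => (hxy n).le) fun n => ?_
    have := (y n).le_opNorm (x n)
    rwa [hx n, mul_one, hyn] at this
  have hsub : Tendsto (fun n => φ (ψ n)) atTop atTop := (hφ.comp hψ).tendsto_atTop
  have hylim : ∀ z, Tendsto (fun n => y n z) atTop (𝓝 ((((N⁻¹ : ℝ) : 𝕜) • u) z)) := by
    intro z
    have h1 : Tendsto (fun n => (((M n)⁻¹ : ℝ) : 𝕜)) atTop (𝓝 ((N⁻¹ : ℝ) : 𝕜)) :=
      (RCLike.continuous_ofReal.tendsto _).comp (hMlim.inv₀ hN0.ne')
    have h2 : Tendsto (fun n => (u + v (φ (ψ n))) z) atTop (𝓝 (u z + 0)) :=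
      tendsto_const_nhds.add ((hv0 z).comp hsub)
    rw [add_zero] at h2
    exact h1.mul h2
  have hna : ¬ ∃ z : E, ‖z‖ = 1 ∧ ‖(((N⁻¹ : ℝ) : 𝕜) • u) z‖ = 1 := by
    rintro ⟨z, hz, hz2⟩
    rw [smul_apply, norm_smul, RCLike.norm_ofReal, abs_of_pos (inv_pos.2 hN0)] at hz2
    have h1 : ‖u z‖ ≤ ‖u‖ := by
      have := u.le_opNorm z
      rwa [hz, mul_one] at this
    have h2 : ‖u z‖ = N := by
      field_simp at hz2
      linarith
    have := le_max_left ‖u‖ 1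
    linarith
  have hwn := claimA hW y (fun n => (hyn n).le) x hx hyx _ hylim hna
  have hux : Tendsto (fun n => ‖u (x n)‖) atTop (𝓝 0) := by
    have := (hwn u).norm
    rwa [norm_zero] at this
  have h3 : ∀ n, M n * ‖y n (x n)‖ ≤ ‖u (x n)‖ + 1 := by
    intro n
    have e1 : M n * ‖y n (x n)‖ = ‖(u + v (φ (ψ n))) (x n)‖ := by
      show M n * ‖((((M n)⁻¹ : ℝ) : 𝕜) • (u + v (φ (ψ n)))) (x n)‖ = _
      rw [smul_apply, norm_smul, RCLike.norm_ofReal, abs_of_pos (inv_pos.2 (hMpos n)),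
        ← mul_assoc, mul_inv_cancel₀ (hMpos n).ne', one_mul]
    rw [e1, add_apply]
    refine (norm_add_le _ _).trans ?_
    have := (v (φ (ψ n))).le_opNorm (x n)
    rw [hx n, mul_one, hv] at this
    linarith
  have h4 : N * 1 ≤ 0 + 1 :=
    le_of_tendsto_of_tendsto' (hMlim.mul hyx) (hux.add tendsto_const_nhds) h3
  have := le_max_right ‖u‖ 1
  linarith

/-- diagonal selection -/
theorem exists_diag (Q : ℕ → (ℕ → ℕ) → ℕ → Prop)
    (hloc : ∀ k h h' n, (∀ i, i < k → h i = h' i) → Q k h n → Q k h' n)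
    (hev : ∀ k h, ∃ n, Q k h n) : ∃ φ : ℕ → ℕ, ∀ k, Q k φ (φ k) := by
  classical
  choose g hg using hev
  let X : ℕ → (ℕ → ℕ) := fun n =>
    Nat.rec (fun _ => 0) (fun k x => Function.update x k (g k x)) n
  have hX : ∀ k, X (k + 1) = Function.update (X k) k (g k (X k)) := fun k => rfl
  have hXx : ∀ k, ∀ i, i < k → X k i = g i (X i) := by
    intro k
    induction k with
    | zero => intro i hi; omega
    | succ k ih =>
      intro i hi
      rw [hX]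
      rcases Nat.lt_succ_iff_lt_or_eq.1 hi with h | h
      · rw [Function.update_of_ne (by omega), ih i h]
      · subst h
        rw [Function.update_self]
  exact ⟨fun k => g k (X k), fun k => hloc k (X k) _ _ (hXx k) (hg k (X k))⟩

theorem main (hW : HasWMP 𝕜 E (lp (fun _ : ℕ => 𝕜) ∞)) : FiniteDimensional 𝕜 E := by
  by_contra hE
  obtain ⟨v, hv, hv0⟩ := jn_rclike hE
  have hex : ∀ n : ℕ, ∃ x : E, ‖x‖ = 1 ∧ wt n < ‖v n x‖ := fun n =>
    exists_unit (v n) (wt n) (wt_nonneg n) (by rw [hv]; exact wt_lt_one n)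
  choose x hx hxv using hex
  have hvx : Tendsto (fun n => ‖v n (x n)‖) atTop (𝓝 1) := by
    refine tendsto_of_tendsto_of_tendsto_of_le_of_le wt_tendsto tendsto_const_nhds
      (fun n => (hxv n).le) fun n => ?_
    have := (v n).le_opNorm (x n)
    rwa [hx n, mul_one, hv] at this
  have hwn : WeaklyNull 𝕜 x :=
    claimA hW v (fun n => (hv n).le) x hx hvx 0 (fun z => by simpa using hv0 z)
      (by rintro ⟨z, -, hz⟩; simp at hz)
  let Q : ℕ → (ℕ → ℕ) → ℕ → Prop := fun k h n =>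
    (∀ i ∈ range k, h i < n) ∧
    ‖∑ i ∈ range k, v (h i) + v n‖ ≤ max ‖∑ i ∈ range k, v (h i)‖ 1 + (1 / 2) ^ (k + 1) ∧
    ‖(∑ i ∈ range k, v (h i)) (x n)‖ ≤ 1 / 8 ∧
    (∀ i ∈ range k, ‖v n (x (h i))‖ ≤ (1 / 2) ^ (k + 3)) ∧
    3 / 4 ≤ ‖v n (x n)‖
  obtain ⟨φ, hφ⟩ := exists_diag Q (by
    intro k h h' n hh hQ
    have e1 : ∑ i ∈ range k, v (h i) = ∑ i ∈ range k, v (h' i) :=
      Finset.sum_congr rfl fun i hi => by rw [hh i (Finset.mem_range.1 hi)]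
    obtain ⟨q1, q2, q3, q4, q5⟩ := hQ
    refine ⟨fun i hi => ?_, ?_, ?_, fun i hi => ?_, q5⟩
    · rw [← hh i (Finset.mem_range.1 hi)]; exact q1 i hi
    · rw [← e1]; exact q2
    · rw [← e1]; exact q3
    · rw [← hh i (Finset.mem_range.1 hi)]; exact q4 i hi) (by
    intro k h
    have p1 : ∀ᶠ n in atTop, ∀ i ∈ range k, h i < n := by
      rw [Filter.eventually_all_finset]
      intro i _
      exact eventually_gt_atTop _
    have p2 := claimB hW v hv hv0 (∑ i ∈ range k, v (h i)) ((1 / 2) ^ (k + 1)) (by positivity)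
    have p3 : ∀ᶠ n in atTop, ‖(∑ i ∈ range k, v (h i)) (x n)‖ ≤ 1 / 8 := by
      have := (hwn (∑ i ∈ range k, v (h i))).norm
      rw [norm_zero] at this
      exact this.eventually_le_const (by norm_num)
    have p4 : ∀ᶠ n in atTop, ∀ i ∈ range k, ‖v n (x (h i))‖ ≤ (1 / 2) ^ (k + 3) := by
      rw [Filter.eventually_all_finset]
      intro i _
      have := (hv0 (x (h i))).norm
      rw [norm_zero] at this
      exact this.eventually_le_const (by positivity)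
    have p5 : ∀ᶠ n in atTop, 3 / 4 ≤ ‖v n (x n)‖ := hvx.eventually_const_le (by norm_num)
    exact (p1.and (p2.and (p3.and (p4.and p5)))).exists)
  have q1 : ∀ k i, i < k → φ i < φ k := fun k i hi => (hφ k).1 i (Finset.mem_range.2 hi)
  have hmono : StrictMono φ := fun a b hab => q1 b a hab
  set S : ℕ → (E →L[𝕜] 𝕜) := fun k => ∑ i ∈ range k, v (φ i) with hS
  have hSs : ∀ k, S (k + 1) = S k + v (φ k) := fun k => Finset.sum_range_succ _ _
  have hSn : ∀ k, ‖S k‖ ≤ 2 - (1 / 2) ^ k := by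
    intro k
    induction k with
    | zero => simp [hS]
    | succ k ih =>
      rw [hSs]
      refine ((hφ k).2.1).trans ?_
      have h1 : max ‖S k‖ 1 ≤ 2 - (1 / 2) ^ k := by
        apply max_le ih
        have : (1 / 2 : ℝ) ^ k ≤ 1 := pow_le_one₀ (by norm_num) (by norm_num)
        linarith
      have h2 : (1 / 2 : ℝ) ^ (k + 1) = (1 / 2) ^ k / 2 := by ring
      have h3 : max ‖∑ i ∈ range k, v (φ i)‖ 1 = max ‖S k‖ 1 := rfl
      rw [h3]
      linarith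
  have hSn2 : ∀ k, ‖S k‖ ≤ 2 := fun k => (hSn k).trans (by
    have : (0 : ℝ) < (1 / 2) ^ k := by positivity
    linarith)
  obtain ⟨Φ, hΦ⟩ := ultralimit (hyperfilter ℕ) S 2 hSn2
  have hU : (hyperfilter ℕ : Filter ℕ) ≤ atTop := Nat.hyperfilter_le_atTop
  have hlow : ∀ i k, i < k → 1 / 2 ≤ ‖S k (x (φ i))‖ := by
    intro i k hik
    have h0 : ∀ d, ‖S (i + 1 + d) (x (φ i)) - S (i + 1) (x (φ i))‖ ≤ 1 / 8 - (1 / 2) ^ (i + 1 + d + 2) := by
      intro d
      induction d with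
      | zero =>
        simp only [add_zero, sub_self, norm_zero]
        have : (1 / 2 : ℝ) ^ (i + 1 + 2) ≤ 1 / 8 := by
          have h5 : (1 / 2 : ℝ) ^ (i + 1 + 2) = (1 / 2) ^ i * (1 / 8) := by ring
          have h6 : (1 / 2 : ℝ) ^ i ≤ 1 := pow_le_one₀ (by norm_num) (by norm_num)
          rw [h5]
          nlinarith
        linarith
      | succ d ih =>
        have e1 : S (i + 1 + (d + 1)) (x (φ i)) - S (i + 1) (x (φ i)) =
            (S (i + 1 + d) (x (φ i)) - S (i + 1) (x (φ i))) + v (φ (i + 1 + d)) (x (φ i)) := by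
          have : S (i + 1 + (d + 1)) = S (i + 1 + d) + v (φ (i + 1 + d)) := hSs (i + 1 + d)
          rw [this, add_apply]
          ring
        rw [e1]
        have h2 := (hφ (i + 1 + d)).2.2.2.1 i (Finset.mem_range.2 (by omega))
        have h3 : (1 / 2 : ℝ) ^ (i + 1 + d + 2) = 2 * (1 / 2) ^ (i + 1 + d + 3) := by ring
        have h4 : i + 1 + (d + 1) + 2 = i + 1 + d + 3 := by ring
        rw [h4]
        refine (norm_add_le _ _).trans ?_
        linarith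
    obtain ⟨d, rfl⟩ := Nat.exists_eq_add_of_le (show i + 1 ≤ k from hik)
    have h1 := h0 d
    have h2 : S (i + 1) (x (φ i)) = S i (x (φ i)) + v (φ i) (x (φ i)) := by rw [hSs, add_apply]
    have h3 := (hφ i).2.2.1
    have h4 := (hφ i).2.2.2.2
    have h5 : ‖v (φ i) (x (φ i))‖ ≤ ‖S (i + 1 + d) (x (φ i))‖ +
        ‖S (i + 1 + d) (x (φ i)) - S (i + 1) (x (φ i))‖ + ‖S i (x (φ i))‖ := by
      have e : v (φ i) (x (φ i)) = S (i + 1 + d) (x (φ i)) -
          (S (i + 1 + d) (x (φ i)) - S (i + 1) (x (φ i))) - S i (x (φ i)) := by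
        rw [h2]; ring
      calc ‖v (φ i) (x (φ i))‖ = ‖S (i + 1 + d) (x (φ i)) -
          (S (i + 1 + d) (x (φ i)) - S (i + 1) (x (φ i))) - S i (x (φ i))‖ := by rw [← e]
        _ ≤ ‖S (i + 1 + d) (x (φ i)) -
          (S (i + 1 + d) (x (φ i)) - S (i + 1) (x (φ i)))‖ + ‖S i (x (φ i))‖ := norm_sub_le _ _
        _ ≤ _ := by
          have := norm_sub_le (S (i + 1 + d) (x (φ i)))
            (S (i + 1 + d) (x (φ i)) - S (i + 1) (x (φ i)))
          linarith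
    have h6 : ‖S i (x (φ i))‖ ≤ 1 / 8 := h3
    have h7 : (0 : ℝ) < (1 / 2) ^ (i + 1 + d + 2) := by positivity
    linarith
  have hΦlow : ∀ i, 1 / 2 ≤ ‖Φ (x (φ i))‖ := by
    intro i
    refine ge_of_tendsto ((hΦ (x (φ i))).norm) (hU ?_)
    filter_upwards [eventually_gt_atTop i] with k hk
    exact hlow i k hk
  have h1 : Tendsto (fun i => ‖Φ (x (φ i))‖) atTop (𝓝 0) := by
    have := ((hwn Φ).comp hmono.tendsto_atTop).norm
    rwa [norm_zero] at this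
  have h2 : (1 / 2 : ℝ) ≤ 0 := ge_of_tendsto' h1 hΦlow
  linarith

/-- The easy direction: on a finite-dimensional space every operator with a maximizing sequence
attains its norm. -/
theorem of_finiteDimensional [FiniteDimensional 𝕜 E] {F : Type*} [NormedAddCommGroup F]
    [NormedSpace 𝕜 F] : HasWMP 𝕜 E F := by
  rintro T ⟨x, ⟨hx, hlim⟩, -⟩
  have : ProperSpace E := FiniteDimensional.proper 𝕜 E
  obtain ⟨z, hz, hmax⟩ := (isCompact_sphere (0 : E) 1).exists_isMaxOn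
    ⟨x 0, by simp [hx]⟩ (T.continuous.norm.continuousOn)
  have hz1 : ‖z‖ = 1 := by simpa using hz
  refine ⟨z, hz1, le_antisymm ?_ ?_⟩
  · have := T.le_opNorm z
    rwa [hz1, mul_one] at this
  · exact le_of_tendsto' hlim fun n => hmax (show x n ∈ Metric.sphere (0 : E) 1 by simp [hx])

end Pool.Agent.Y278.WMP
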